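import Mathlib
set_option autoImplicit false
open Filter Metric Set Complex Topology

namespace Pool.LibRMT

/-! ### Montel's theorem along an ultrafilter -/

/-- Cauchy estimate: a holomorphic function bounded by `M` on `ball x (2 r)` is `M / r`-Lipschitz on `ball x r` -/
theorem lip_of_bound {f : ℂ → ℂ} {x : ℂ} {r M : ℝ} (hr : 0 < r) 
    (hd : DifferentiableOn ℂ f (ball x (2 * r))) (hb : ∀ z ∈ ball x (2 * r), ‖f z‖ ≤ M) :
    ∀ y ∈ ball x r, ∀ z ∈ ball x r, ‖f y - f z‖ ≤ M / (r / 2) * ‖y - z‖ := by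
  have hder : ∀ y ∈ ball x r, ‖deriv f y‖ ≤ M / (r / 2) := by
    intro y hy
    have hsub : closedBall y (r / 2) ⊆ ball x (2 * r) := by
      intro w hw
      rw [mem_closedBall] at hw
      rw [mem_ball] at hy ⊢
      have := dist_triangle w y x
      linarith
    refine Complex.norm_deriv_le_of_forall_mem_sphere_norm_le (by linarith) ?_ (fun z hz => ?_)
    · have : DifferentiableOn ℂ f (closedBall y (r / 2)) := hd.mono hsub
      exact (this.mono closure_ball_subset_closedBall).diffContOnCl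
    · exact hb z (hsub (sphere_subset_closedBall hz))
  intro y hy z hz
  have hda : ∀ w ∈ ball x r, HasDerivWithinAt f (deriv f w) (ball x r) w := by
    intro w hw
    have hw2 : w ∈ ball x (2 * r) := ball_subset_ball (by linarith) hw
    exact ((hd.differentiableAt (isOpen_ball.mem_nhds hw2)).hasDerivAt).hasDerivWithinAt
  exact (convex_ball x r).norm_image_sub_le_of_norm_hasDerivWithin_le hda hder hz hy

/-- Montel: a locally bounded family of holomorphic functions converges locally uniformly along every ultrafilter -/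
theorem montel {ι : Type*} (φ : Ultrafilter ι) (F : ι → ℂ → ℂ) {U : Set ℂ} (hU : IsOpen U)
    (hd : ∀ i, DifferentiableOn ℂ (F i) U)
    (hb : ∀ x ∈ U, ∃ r > 0, ∃ M : ℝ, ∀ i, ∀ z ∈ ball x r ∩ U, ‖F i z‖ ≤ M) :
    ∃ f : ℂ → ℂ, TendstoLocallyUniformlyOn F f (φ : Filter ι) U := by
  classical
  -- pointwise limits
  have hpt : ∀ x : ℂ, ∃ c : ℂ, x ∈ U → Tendsto (fun i => F i x) φ (𝓝 c) := by
    intro x
    by_cases hx : x ∈ U
    · obtain ⟨r, hr, M, hM⟩ := hb x hx
      have hK : IsCompact (closedBall (0 : ℂ) M) := isCompact_closedBall _ _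
      have hmem : closedBall (0 : ℂ) M ∈ (φ.map (fun i => F i x) : Filter ℂ) := by
        rw [Ultrafilter.coe_map, Filter.mem_map]
        refine Filter.univ_mem' (fun i => ?_)
        simp only [mem_preimage, mem_closedBall, dist_zero_right]
        exact hM i x ⟨mem_ball_self hr, hx⟩
      obtain ⟨c, hc, hle⟩ := hK.ultrafilter_le_nhds (φ.map (fun i => F i x)) (by
        rw [Filter.le_principal_iff]; exact hmem)
      exact ⟨c, fun _ => hle⟩
    · exact ⟨0, fun h => absurd h hx⟩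
  choose f hf using hpt
  refine ⟨f, ?_⟩
  rw [Metric.tendstoLocallyUniformlyOn_iff]
  intro ε hε x hx
  obtain ⟨r₀, hr₀, M, hM⟩ := hb x hx
  obtain ⟨r₁, hr₁, hsub⟩ := Metric.isOpen_iff.1 hU x hx
  obtain ⟨r, hr, hrr⟩ : ∃ r > 0, 2 * r ≤ min r₀ r₁ := 
    ⟨min r₀ r₁ / 2, by positivity, by linarith⟩
  have h2r₀ : 2 * r ≤ r₀ := hrr.trans (min_le_left _ _)
  have h2r₁ : 2 * r ≤ r₁ := hrr.trans (min_le_right _ _)
  have hbU : ball x (2 * r) ⊆ U := (ball_subset_ball h2r₁).trans hsub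
  have hlip : ∀ i, ∀ y ∈ ball x r, ∀ z ∈ ball x r, ‖F i y - F i z‖ ≤ M / (r / 2) * ‖y - z‖ := by
    intro i
    refine lip_of_bound hr ((hd i).mono hbU) (fun z hz => hM i z ⟨ball_subset_ball h2r₀ hz, hbU hz⟩)
  obtain ⟨L, hL⟩ : ∃ L : ℝ, L = M / (r / 2) := ⟨_, rfl⟩
  rw [← hL] at hlip
  have hφ : (φ : Filter ι).NeBot := φ.neBot
  have hne : Nonempty ι := by
    by_contra h
    rw [not_nonempty_iff] at h
    have := (φ : Filter ι).filter_eq_bot_of_isEmpty
    exact hφ.ne this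
  have hL0 : 0 ≤ L := by
    obtain ⟨i⟩ := hne
    have h1 := hM i x ⟨mem_ball_self hr₀, hx⟩
    have h2 : 0 ≤ M := le_trans (norm_nonneg _) h1
    rw [hL]; positivity
  have hxr : ball x r ⊆ U := (ball_subset_ball (by linarith)).trans hbU
  have hflip : ∀ y ∈ ball x r, ∀ z ∈ ball x r, ‖f y - f z‖ ≤ L * ‖y - z‖ := by
    intro y hy z hz
    have h1 : Tendsto (fun i => ‖F i y - F i z‖) φ (𝓝 ‖f y - f z‖) :=
      ((hf y (hxr hy)).sub (hf z (hxr hz))).norm
    exact le_of_tendsto h1 (Filter.Eventually.of_forall (fun i => hlip i y hy z hz))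
  -- small ball
  obtain ⟨δ, hδ, hδr, hδε⟩ : ∃ δ > 0, δ ≤ r ∧ L * δ ≤ ε / 3 := by
    refine ⟨min r (ε / 3 / (L + 1)), by positivity, min_le_left _ _, ?_⟩
    calc L * min r (ε / 3 / (L + 1)) ≤ L * (ε / 3 / (L + 1)) := by gcongr; exact min_le_right _ _
      _ ≤ (L + 1) * (ε / 3 / (L + 1)) := by gcongr; linarith
      _ = ε / 3 := by field_simp
  refine ⟨ball x δ, mem_nhdsWithin_of_mem_nhds (ball_mem_nhds x hδ), ?_⟩
  have hev : ∀ᶠ i in (φ : Filter ι), ‖F i x - f x‖ < ε / 3 := by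
    have := (hf x hx).eventually (Metric.ball_mem_nhds (f x) (by positivity : 0 < ε / 3))
    filter_upwards [this] with i hi
    rwa [dist_eq_norm] at hi
  filter_upwards [hev] with i hi y hy
  have hyr : y ∈ ball x r := ball_subset_ball hδr hy
  have hxx : x ∈ ball x r := mem_ball_self hr
  have h1 := hlip i y hyr x hxx
  have h2 := hflip y hyr x hxx
  have h3 : ‖y - x‖ ≤ δ := by rw [← dist_eq_norm]; exact (mem_ball.1 hy).le
  have h4 : L * ‖y - x‖ ≤ ε / 3 := le_trans (by gcongr) hδε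
  rw [dist_eq_norm]
  calc ‖f y - F i y‖ = ‖(f y - f x) - (F i x - f x) - (F i y - F i x)‖ := by congr 1; ring
    _ ≤ ‖f y - f x‖ + ‖F i x - f x‖ + ‖F i y - F i x‖ := by
        refine (norm_sub_le _ _).trans ?_
        gcongr
        exact norm_sub_le _ _
    _ < ε / 3 + ε / 3 + ε / 3 := by linarith
    _ = ε := by ring

/-- Montel for sequences: a locally bounded sequence has a locally uniformly convergent refinement (ultrafilter) -/
theorem montel_nat (F : ℕ → ℂ → ℂ) {U : Set ℂ} (hU : IsOpen U)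
    (hd : ∀ i, DifferentiableOn ℂ (F i) U)
    (hb : ∀ x ∈ U, ∃ r > 0, ∃ M : ℝ, ∀ i, ∀ z ∈ ball x r ∩ U, ‖F i z‖ ≤ M) :
    ∃ f : ℂ → ℂ, TendstoLocallyUniformlyOn F f (Filter.hyperfilter ℕ : Filter ℕ) U :=
  montel _ F hU hd hb

/-! ### Hurwitz's theorem -/

theorem hurwitz_ne {ι : Type*} {φ : Filter ι} [NeBot φ] {F : ι → ℂ → ℂ} {f : ℂ → ℂ} {U : Set ℂ}
    (hU : IsOpen U) (hF : TendstoLocallyUniformlyOn F f φ U)
    (hd : ∀ᶠ i in φ, DifferentiableOn ℂ (F i) U) (hne : ∀ᶠ i in φ, ∀ z ∈ U, F i z ≠ 0)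
    {z₀ : ℂ} (hz₀ : z₀ ∈ U) (hfz : ¬ ∀ᶠ z in 𝓝 z₀, f z = 0) : f z₀ ≠ 0 := by
  have hfd : DifferentiableOn ℂ f U := hF.differentiableOn hd hU
  have han : AnalyticAt ℂ f z₀ := hfd.analyticAt (hU.mem_nhds hz₀)
  have h1 : ∀ᶠ z in 𝓝[≠] z₀, f z ≠ 0 := (han.eventually_eq_zero_or_eventually_ne_zero).resolve_left hfz
  rw [eventually_nhdsWithin_iff] at h1
  obtain ⟨r₁, hr₁, h2⟩ := Metric.eventually_nhds_iff_ball.1 h1
  obtain ⟨r₂, hr₂, hsub⟩ := Metric.isOpen_iff.1 hU z₀ hz₀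
  obtain ⟨r, hr, hr1, hr2⟩ : ∃ r > 0, r < r₁ ∧ r < r₂ := by
    refine ⟨min r₁ r₂ / 2, by positivity, ?_, ?_⟩
    · have := min_le_left r₁ r₂; have : 0 < min r₁ r₂ := by positivity
      linarith
    · have := min_le_right r₁ r₂; have : 0 < min r₁ r₂ := by positivity
      linarith
  have hcb : closedBall z₀ r ⊆ U := (closedBall_subset_ball hr2).trans hsub
  have hsph : ∀ z ∈ sphere z₀ r, f z ≠ 0 := by
    intro z hz
    refine h2 z (closedBall_subset_ball hr1 (sphere_subset_closedBall hz)) ?_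
    simp only [mem_compl_iff, mem_singleton_iff]
    rintro rfl
    simp [hr.ne'] at hz
    exact hr.ne hz
  have hcs : IsCompact (sphere z₀ r) := isCompact_sphere _ _
  have hns : (sphere z₀ r).Nonempty := NormedSpace.sphere_nonempty.2 hr.le
  have hcont : ContinuousOn (fun z => ‖f z‖) (sphere z₀ r) := 
    (hfd.continuousOn.mono (sphere_subset_closedBall.trans hcb)).norm
  obtain ⟨w, hw, hmin⟩ := hcs.exists_isMinOn hns hcont
  obtain ⟨m, hm⟩ : ∃ m : ℝ, m = ‖f w‖ := ⟨_, rfl⟩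
  have hm0 : 0 < m := by rw [hm]; exact norm_pos_iff.2 (hsph w hw)
  have hmle : ∀ z ∈ sphere z₀ r, m ≤ ‖f z‖ := fun z hz => by rw [hm]; exact hmin hz
  have hunif : TendstoUniformlyOn F f φ (closedBall z₀ r) := 
    (tendstoLocallyUniformlyOn_iff_forall_isCompact hU).1 hF _ hcb (isCompact_closedBall _ _)
  rw [Metric.tendstoUniformlyOn_iff] at hunif
  have hev := hunif (m / 2) (by positivity)
  intro hzero
  obtain ⟨i, ⟨hdi, hnei⟩, hi⟩ := ((hd.and hne).and hev).exists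
  have hlow : ∀ z ∈ sphere z₀ r, m / 2 ≤ ‖F i z‖ := by
    intro z hz
    have h3 := hi z (sphere_subset_closedBall hz)
    rw [dist_eq_norm] at h3
    have h4 := hmle z hz
    have h5 : ‖f z‖ ≤ ‖F i z‖ + ‖f z - F i z‖ := by
      calc ‖f z‖ = ‖F i z + (f z - F i z)‖ := by congr 1; ring
        _ ≤ _ := norm_add_le _ _
    linarith
  have hinv : DifferentiableOn ℂ (fun z => (F i z)⁻¹) (closedBall z₀ r) := 
    (hdi.mono hcb).inv (fun z hz => hnei z (hcb hz))
  have hmax : ‖(F i z₀)⁻¹‖ ≤ 2 / m := by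
    refine Complex.norm_le_of_forall_mem_frontier_norm_le (U := ball z₀ r) isBounded_ball 
      (hinv.mono closure_ball_subset_closedBall).diffContOnCl ?_ (subset_closure (mem_ball_self hr))
    intro z hz
    rw [frontier_ball _ hr.ne'] at hz
    have h3 := hlow z hz
    rw [norm_inv]
    have h4 : 0 < m / 2 := by positivity
    calc ‖F i z‖⁻¹ ≤ (m / 2)⁻¹ := by gcongr
      _ = 2 / m := by field_simp
  have h6 := hi z₀ (mem_closedBall_self hr.le)
  rw [hzero, dist_zero_left] at h6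
  have h7 : 0 < ‖F i z₀‖ := norm_pos_iff.2 (hnei z₀ hz₀)
  rw [norm_inv] at hmax
  have h8 : 1 ≤ 2 / m * ‖F i z₀‖ := by
    calc 1 = ‖F i z₀‖⁻¹ * ‖F i z₀‖ := by field_simp
      _ ≤ _ := by gcongr
  have h9 : 2 / m * ‖F i z₀‖ < 2 / m * (m / 2) := by gcongr
  have h10 : 2 / m * (m / 2) = 1 := by field_simp
  linarith

/-- Hurwitz: a locally uniform limit of injective holomorphic functions on a connected open set is
injective or constant -/
theorem hurwitz_inj {ι : Type*} {φ : Filter ι} [NeBot φ] {F : ι → ℂ → ℂ} {f : ℂ → ℂ} {U : Set ℂ}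
    (hU : IsOpen U) (hc : IsPreconnected U) (hF : TendstoLocallyUniformlyOn F f φ U)
    (hd : ∀ᶠ i in φ, DifferentiableOn ℂ (F i) U) (hinj : ∀ᶠ i in φ, InjOn (F i) U)
    {x y : ℂ} (hx : x ∈ U) (hy : y ∈ U) (hxy : f x ≠ f y) : InjOn f U := by
  have hfd : DifferentiableOn ℂ f U := hF.differentiableOn hd hU
  intro z hz w hw hzw
  by_contra hne
  have hV : IsOpen (U \ {w}) := hU.sdiff isClosed_singleton
  have hzV : z ∈ U \ {w} := ⟨hz, hne⟩
  have hVU : U \ {w} ⊆ U := sdiff_subset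
  have hFw : Tendsto (fun i => F i w) φ (𝓝 (f w)) := hF.tendsto_at hw
  have hG : TendstoLocallyUniformlyOn (fun i z => F i z - F i w) (fun z => f z - f w) φ (U \ {w}) := by
    rw [Metric.tendstoLocallyUniformlyOn_iff]
    intro ε hε p hp
    have h1 := (Metric.tendstoLocallyUniformlyOn_iff.1 hF) (ε / 2) (by positivity) p (hVU hp)
    obtain ⟨t, ht, h2⟩ := h1
    refine ⟨t, nhdsWithin_mono _ hVU ht, ?_⟩
    have h3 := hFw.eventually (Metric.ball_mem_nhds (f w) (by positivity : 0 < ε / 2))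
    filter_upwards [h2, h3] with i hi h3i q hq
    have h4 := hi q hq
    rw [dist_eq_norm] at h3i
    rw [dist_eq_norm] at h4 ⊢
    calc ‖f q - f w - (F i q - F i w)‖ = ‖(f q - F i q) + (F i w - f w)‖ := by congr 1; ring
      _ ≤ ‖f q - F i q‖ + ‖F i w - f w‖ := norm_add_le _ _
      _ < ε / 2 + ε / 2 := by linarith
      _ = ε := by ring
  have hdG : ∀ᶠ i in φ, DifferentiableOn ℂ (fun z => F i z - F i w) (U \ {w}) := by
    filter_upwards [hd] with i hi
    exact (hi.mono hVU).sub_const _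
  have hneG : ∀ᶠ i in φ, ∀ q ∈ U \ {w}, F i q - F i w ≠ 0 := by
    filter_upwards [hinj] with i hi q hq h0
    exact hq.2 (hi (hVU hq) hw (sub_eq_zero.1 h0))
  have hnz : ¬ ∀ᶠ q in 𝓝 z, f q - f w = 0 := by
    intro h0
    have hA : AnalyticOnNhd ℂ f U := hfd.analyticOnNhd hU
    have hB : AnalyticOnNhd ℂ (fun _ : ℂ => f w) U := analyticOnNhd_const
    have hE : EqOn f (fun _ => f w) U := by
      refine hA.eqOn_of_preconnected_of_eventuallyEq hB hc hz ?_
      filter_upwards [h0] with q hq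
      exact sub_eq_zero.1 hq
    exact hxy ((hE hx).trans (hE hy).symm)
  exact hurwitz_ne hV hG hdG hneG hzV hnz (sub_eq_zero.2 hzw)

end Pool.LibRMT
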