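import Pool.Agent.LibRMT.LengthArea

open Set Filter Topology Metric Complex MeasureTheory
open scoped Real ENNReal

namespace Pool.LibRMT

/-- `U` is locally connected at the (boundary) point `a` -/
def LocConnAt (U : Set ℂ) (a : ℂ) : Prop :=
  ∀ ε > 0, ∃ δ > 0, ∀ x ∈ U ∩ ball a δ, ∀ y ∈ U ∩ ball a δ,
    ∃ E ⊆ U ∩ ball a ε, IsPreconnected E ∧ x ∈ E ∧ y ∈ E

/-- `g` is a conformal map of the unit disc onto `U` -/
structure ConfMap (g : ℂ → ℂ) (U : Set ℂ) : Prop where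
  diff : DifferentiableOn ℂ g (ball 0 1)
  inj : InjOn g (ball 0 1)
  image : g '' ball 0 1 = U

theorem ConfMap.isOpen {g : ℂ → ℂ} {U : Set ℂ} (hg : ConfMap g U) : IsOpen U := by
  rw [← hg.image]
  exact isOpen_image isOpen_ball hg.diff hg.inj isOpen_ball (Subset.refl _)

theorem ConfMap.mem {g : ℂ → ℂ} {U : Set ℂ} (hg : ConfMap g U) {z : ℂ} (hz : z ∈ ball (0 : ℂ) 1) : 
    g z ∈ U := by
  rw [← hg.image]; exact ⟨z, hz, rfl⟩

theorem ConfMap.exists_inv {g : ℂ → ℂ} {U : Set ℂ} (hg : ConfMap g U) : 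
    ∃ h : ℂ → ℂ, DifferentiableOn ℂ h U ∧ (∀ w ∈ U, h w ∈ ball (0 : ℂ) 1 ∧ g (h w) = w) ∧ 
      ∀ z ∈ ball (0 : ℂ) 1, h (g z) = z :=
  inverse_diff isOpen_ball hg.diff hg.inj hg.image

/-- boundary limits of `g` are not in `U` -/
theorem ConfMap.limit_notMem {g : ℂ → ℂ} {U : Set ℂ} (hg : ConfMap g U) {ζ x : ℂ} (hζ : ‖ζ‖ = 1)
    {F : Filter ℂ} [NeBot F] (hF : F ≤ 𝓝[ball 0 1] ζ) (hx : Tendsto g F (𝓝 x)) : x ∉ U := by
  intro hxU
  obtain ⟨h, hh, hhU, hhg⟩ := hg.exists_inv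
  have h1 : Tendsto h (𝓝 x) (𝓝 (h x)) := (hh.differentiableAt (hg.isOpen.mem_nhds hxU)).continuousAt
  have h2 : Tendsto (fun z => h (g z)) F (𝓝 (h x)) := h1.comp hx
  have h3 : ∀ᶠ z in F, h (g z) = z := by
    have : ∀ᶠ z in 𝓝[ball 0 1] ζ, h (g z) = z := by
      filter_upwards [self_mem_nhdsWithin] with z hz
      exact hhg z hz
    exact hF this
  have h4 : Tendsto (fun z => z) F (𝓝 (h x)) := h2.congr' h3
  have h5 : Tendsto (fun z => z) F (𝓝 ζ) := hF.trans nhdsWithin_le_nhds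
  have h6 := tendsto_nhds_unique h4 h5
  have h7 := (hhU x hxU).1
  rw [h6, mem_ball, dist_zero_right, hζ] at h7
  exact lt_irrefl _ h7

/-- a preconnected subset of `U` whose preimage meets both sides of a level set meets the level set -/
theorem ConfMap.cross {g : ℂ → ℂ} {U : Set ℂ} (hg : ConfMap g U) {E : Set ℂ} (hE : IsPreconnected E)
    (hEU : E ⊆ U) {u : ℂ → ℝ} (hu : Continuous u) {c : ℝ} {z w : ℂ} (hz : z ∈ ball (0 : ℂ) 1) 
    (hw : w ∈ ball (0 : ℂ) 1) (hzE : g z ∈ E) (hwE : g w ∈ E) (h1 : u z ≤ c) (h2 : c ≤ u w) : 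
    ∃ y ∈ ball (0 : ℂ) 1, u y = c ∧ g y ∈ E := by
  obtain ⟨h, hh, hhU, hhg⟩ := hg.exists_inv
  have hc : ContinuousOn (fun x => u (h x)) E := 
    hu.comp_continuousOn (hh.continuousOn.mono hEU)
  have h3 := hE.intermediate_value hzE hwE hc
  rw [hhg z hz, hhg w hw] at h3
  obtain ⟨x, hxE, hx⟩ := h3 ⟨h1, h2⟩
  refine ⟨h x, (hhU x (hEU hxE)).1, hx, ?_⟩
  rw [(hhU x (hEU hxE)).2]
  exact hxE

theorem frontier_of_limit {U : Set ℂ} (hU : IsOpen U) {x : ℂ} (hx : x ∈ closure U) (hn : x ∉ U) : 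
    x ∈ frontier U := by
  rw [frontier, hU.interior_eq]
  exact ⟨hx, hn⟩

/-- the boundary limit exists -/
theorem ConfMap.exists_limit {g : ℂ → ℂ} {U : Set ℂ} (hg : ConfMap g U) (hb : Bornology.IsBounded U)
    (hlc : ∀ a ∈ frontier U, LocConnAt U a) {ζ : ℂ} (hζ : ‖ζ‖ = 1) : 
    ∃ l, Tendsto g (𝓝[ball 0 1] ζ) (𝓝 l) := by
  have hvol : volume (g '' ball 0 1) ≠ ⊤ := by
    rw [hg.image]; exact hb.measure_lt_top.ne
  have hcomp : IsCompact (closure U) := hb.isCompact_closure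
  have h1 : ∀ n : ℕ, ∃ ρ ∈ Ioo (0 : ℝ) (1 / ((n : ℝ) + 1)), ∀ z w : ℂ, ‖z‖ < 1 → ‖w‖ < 1 → 
      ‖z - ζ‖ = ρ → ‖w - ζ‖ = ρ → ‖g z - g w‖ ≤ 1 / ((n : ℝ) + 1) := fun n =>
    exists_small_circle hg.diff hg.inj hvol hζ (by positivity) (by positivity)
  choose ρ hρ hosc using h1
  have hρ1 : ∀ n, ρ n < 1 := fun n => by
    refine (hρ n).2.trans_le ?_
    rw [div_le_one (by positivity)]
    linarith [Nat.cast_nonneg (α := ℝ) n]
  obtain ⟨q, hq⟩ : ∃ q : ℕ → ℂ, q = fun n => ζ * ((1 - ρ n : ℝ) : ℂ) := ⟨_, rfl⟩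
  have hq1 : ∀ n, ‖q n‖ < 1 := by
    intro n
    rw [hq]
    simp only
    rw [norm_mul, hζ, one_mul, Complex.norm_real, Real.norm_eq_abs, 
      abs_of_pos (by linarith [hρ1 n])]
    linarith [(hρ n).1]
  have hq2 : ∀ n, ‖q n - ζ‖ = ρ n := by
    intro n
    have : q n - ζ = ζ * ((-ρ n : ℝ) : ℂ) := by
      rw [hq]; push_cast; ring
    rw [this, norm_mul, hζ, one_mul, Complex.norm_real, Real.norm_eq_abs, abs_neg, 
      abs_of_pos (hρ n).1]
  have hqU : ∀ n, g (q n) ∈ closure U := fun n => 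
    subset_closure (hg.mem (by rw [mem_ball, dist_zero_right]; exact hq1 n))
  obtain ⟨p, hpU, hp⟩ := hcomp.ultrafilter_le_nhds ((Filter.hyperfilter ℕ).map (fun n => g (q n))) 
    (by
      rw [le_principal_iff]
      exact Filter.mem_map.2 (Eventually.of_forall hqU))
  have hp' : Tendsto (fun n => g (q n)) (Filter.hyperfilter ℕ : Filter ℕ) (𝓝 p) := hp
  refine ⟨p, ?_⟩
  rw [tendsto_iff_ultrafilter]
  intro F hF
  have hball : ∀ᶠ z in (F : Filter ℂ), z ∈ ball (0 : ℂ) 1 := hF self_mem_nhdsWithin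
  obtain ⟨x, hxU, hx⟩ := hcomp.ultrafilter_le_nhds (F.map g) (by
    rw [le_principal_iff]
    refine Filter.mem_map.2 ?_
    filter_upwards [hball] with z hz
    exact subset_closure (hg.mem hz))
  have hx' : Tendsto g (F : Filter ℂ) (𝓝 x) := hx
  have hxn : x ∉ U := hg.limit_notMem hζ hF hx'
  have hxf : x ∈ frontier U := frontier_of_limit hg.isOpen hxU hxn
  have hxp : x = p := by
    by_contra hne
    have hε : 0 < dist x p := dist_pos.2 hne
    obtain ⟨δ, hδ, hE⟩ := hlc x hxf (dist x p / 4) (by positivity)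
    have hS : ∀ᶠ z in (F : Filter ℂ), z ∈ ball (0 : ℂ) 1 ∧ g z ∈ ball x δ := 
      hball.and (hx' (ball_mem_nhds x hδ))
    obtain ⟨z₁, hz₁, hgz₁⟩ := hS.exists
    have hd : 0 < ‖z₁ - ζ‖ := by
      rw [norm_pos_iff, sub_ne_zero]
      rintro rfl
      rw [mem_ball, dist_zero_right, hζ] at hz₁
      exact lt_irrefl _ hz₁
    -- choose n
    have hlim : Tendsto (fun n : ℕ => 1 / ((n : ℝ) + 1)) atTop (𝓝 0) := 
      tendsto_one_div_add_atTop_nhds_zero_nat
    have hm : 0 < min ‖z₁ - ζ‖ (dist x p / 4) := lt_min hd (by positivity)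
    have he1 : ∀ᶠ n : ℕ in (Filter.hyperfilter ℕ : Filter ℕ), 
        1 / ((n : ℝ) + 1) < min ‖z₁ - ζ‖ (dist x p / 4) := by
      have := hlim.eventually (gt_mem_nhds hm)
      exact Nat.hyperfilter_le_atTop this
    have he2 : ∀ᶠ n : ℕ in (Filter.hyperfilter ℕ : Filter ℕ), dist (g (q n)) p < dist x p / 4 := 
      hp' (ball_mem_nhds p (by positivity))
    obtain ⟨n, hn1, hn2⟩ := (he1.and he2).exists
    have hn3 : 1 / ((n : ℝ) + 1) < ‖z₁ - ζ‖ := hn1.trans_le (min_le_left _ _)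
    have hn4 : 1 / ((n : ℝ) + 1) < dist x p / 4 := hn1.trans_le (min_le_right _ _)
    -- choose z₂
    have hball2 : ∀ᶠ z in (F : Filter ℂ), z ∈ ball ζ (ρ n) := 
      hF (mem_nhdsWithin_of_mem_nhds (ball_mem_nhds ζ (hρ n).1))
    obtain ⟨z₂, ⟨hz₂, hgz₂⟩, hz₂ζ⟩ := (hS.and hball2).exists
    obtain ⟨E, hEs, hEc, hE1, hE2⟩ := hE (g z₂) ⟨hg.mem hz₂, hgz₂⟩ (g z₁) ⟨hg.mem hz₁, hgz₁⟩
    obtain ⟨y, hy, hyρ, hyE⟩ := hg.cross hEc (hEs.trans inter_subset_left) 
      (u := fun z => ‖z - ζ‖) (by fun_prop) (c := ρ n) hz₂ hz₁ hE1 hE2 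
      (by rw [mem_ball, dist_eq_norm] at hz₂ζ; exact hz₂ζ.le) 
      (((hρ n).2.trans hn3).le)
    have h3 := (hEs hyE).2
    rw [mem_ball] at h3 hy
    rw [dist_zero_right] at hy
    have h4 := hosc n y (q n) hy (hq1 n) hyρ (hq2 n)
    rw [← dist_eq_norm] at h4
    have h5 : dist x p ≤ dist x (g y) + dist (g y) (g (q n)) + dist (g (q n)) p := 
      dist_triangle4 _ _ _ _
    rw [dist_comm x (g y)] at h5
    linarith
  rw [← hxp]
  exact hx'

/-- the boundary extension -/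
noncomputable def ext (g : ℂ → ℂ) : ℂ → ℂ := extendFrom (ball 0 1) g

theorem ConfMap.ext_eq {g : ℂ → ℂ} {U : Set ℂ} (hg : ConfMap g U) {z : ℂ} (hz : z ∈ ball (0 : ℂ) 1) : 
    ext g z = g z := 
  extendFrom_eq (subset_closure hz) 
    ((hg.diff.continuousOn z hz).tendsto)

theorem ConfMap.continuousOn_ext {g : ℂ → ℂ} {U : Set ℂ} (hg : ConfMap g U) 
    (hb : Bornology.IsBounded U) (hlc : ∀ a ∈ frontier U, LocConnAt U a) : 
    ContinuousOn (ext g) (closedBall 0 1) := by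
  refine continuousOn_extendFrom ?_ ?_
  · rw [closure_ball _ one_ne_zero]
  · intro z hz
    rcases lt_or_eq_of_le (mem_closedBall_zero_iff.1 hz) with h | h
    · exact ⟨g z, (hg.diff.continuousOn z (mem_ball_zero_iff.2 h)).tendsto⟩
    · exact hg.exists_limit hb hlc h

theorem neBot_sphere {ζ : ℂ} (hζ : ‖ζ‖ = 1) : NeBot (𝓝[ball 0 1] ζ) := by
  rw [← mem_closure_iff_nhdsWithin_neBot, closure_ball _ one_ne_zero, mem_closedBall_zero_iff]
  exact hζ.le

theorem ConfMap.tendsto_ext {g : ℂ → ℂ} {U : Set ℂ} (hg : ConfMap g U) 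
    (hb : Bornology.IsBounded U) (hlc : ∀ a ∈ frontier U, LocConnAt U a) {ζ : ℂ} (hζ : ‖ζ‖ = 1) : 
    Tendsto g (𝓝[ball 0 1] ζ) (𝓝 (ext g ζ)) := by
  have h1 := (hg.continuousOn_ext hb hlc) ζ (mem_closedBall_zero_iff.2 hζ.le)
  have h2 : Tendsto (ext g) (𝓝[ball 0 1] ζ) (𝓝 (ext g ζ)) := 
    h1.mono_left (nhdsWithin_mono _ ball_subset_closedBall)
  refine h2.congr' ?_
  filter_upwards [self_mem_nhdsWithin] with z hz
  exact hg.ext_eq hz

theorem ConfMap.ext_frontier {g : ℂ → ℂ} {U : Set ℂ} (hg : ConfMap g U) 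
    (hb : Bornology.IsBounded U) (hlc : ∀ a ∈ frontier U, LocConnAt U a) {ζ : ℂ} (hζ : ‖ζ‖ = 1) : 
    ext g ζ ∈ frontier U := by
  have := neBot_sphere hζ
  have h1 := hg.tendsto_ext hb hlc hζ
  refine frontier_of_limit hg.isOpen ?_ (hg.limit_notMem hζ le_rfl h1)
  refine mem_closure_of_tendsto h1 ?_
  filter_upwards [self_mem_nhdsWithin] with z hz
  exact hg.mem hz

/-- two boundary points with the same value can not be separated by a level set without that value -/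
theorem ConfMap.no_separation {g : ℂ → ℂ} {U : Set ℂ} (hg : ConfMap g U) 
    (hb : Bornology.IsBounded U) (hlc : ∀ a ∈ frontier U, LocConnAt U a) {ζ₁ ζ₂ a : ℂ} 
    (h₁ : ‖ζ₁‖ = 1) (h₂ : ‖ζ₂‖ = 1) (ha₁ : ext g ζ₁ = a) (ha₂ : ext g ζ₂ = a) {u : ℂ → ℝ} 
    (hu : Continuous u) (hu1 : u ζ₁ < 0) (hu2 : 0 < u ζ₂) : 
    ∃ z ∈ closedBall (0 : ℂ) 1, u z = 0 ∧ ext g z = a := by
  by_contra hcon
  push Not at hcon
  have hK : IsCompact (closedBall (0 : ℂ) 1 ∩ u ⁻¹' {0}) := 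
    (isCompact_closedBall 0 1).inter_right (isClosed_singleton.preimage hu)
  have hGc := hg.continuousOn_ext hb hlc
  obtain ⟨c, hc, hcK⟩ : ∃ c > 0, ∀ z ∈ closedBall (0 : ℂ) 1 ∩ u ⁻¹' {0}, c ≤ dist (ext g z) a := by
    rcases (closedBall (0 : ℂ) 1 ∩ u ⁻¹' {0}).eq_empty_or_nonempty with hempty | hne
    · refine ⟨1, one_pos, ?_⟩
      rw [hempty]
      intro z hz
      exact absurd hz (notMem_empty z)
    · obtain ⟨z₀, hz₀, hmin⟩ := hK.exists_isMinOn hne 
        (f := fun z => ‖ext g z - a‖) ((hGc.mono inter_subset_left).sub continuousOn_const).norm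
      refine ⟨‖ext g z₀ - a‖, norm_pos_iff.2 (sub_ne_zero.2 (hcon z₀ hz₀.1 hz₀.2)), fun z hz => ?_⟩
      rw [dist_eq_norm]
      exact hmin hz
  have haf : a ∈ frontier U := ha₁ ▸ hg.ext_frontier hb hlc h₁
  obtain ⟨δ, hδ, hE⟩ := hlc a haf c hc
  have := neBot_sphere h₁
  have := neBot_sphere h₂
  have e1 : ∀ᶠ z in 𝓝[ball 0 1] ζ₁, g z ∈ ball a δ := by
    have := hg.tendsto_ext hb hlc h₁
    rw [ha₁] at this
    exact this (ball_mem_nhds a hδ)
  have e2 : ∀ᶠ z in 𝓝[ball 0 1] ζ₂, g z ∈ ball a δ := by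
    have := hg.tendsto_ext hb hlc h₂
    rw [ha₂] at this
    exact this (ball_mem_nhds a hδ)
  have e3 : ∀ᶠ z in 𝓝[ball 0 1] ζ₁, u z < 0 := 
    mem_nhdsWithin_of_mem_nhds (hu.continuousAt.eventually (gt_mem_nhds hu1))
  have e4 : ∀ᶠ z in 𝓝[ball 0 1] ζ₂, 0 < u z := 
    mem_nhdsWithin_of_mem_nhds (hu.continuousAt.eventually (lt_mem_nhds hu2))
  obtain ⟨z, ⟨hz1, hz2⟩, hz3⟩ := ((e1.and e3).and self_mem_nhdsWithin).exists
  obtain ⟨w, ⟨hw1, hw2⟩, hw3⟩ := ((e2.and e4).and self_mem_nhdsWithin).exists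
  obtain ⟨E, hEs, hEc, hE1, hE2⟩ := hE (g z) ⟨hg.mem hz3, hz1⟩ (g w) ⟨hg.mem hw3, hw1⟩
  obtain ⟨y, hy, hyu, hyE⟩ := hg.cross hEc (hEs.trans inter_subset_left) hu (c := 0) hz3 hw3 
    hE1 hE2 hz2.le hw2.le
  have h3 := (hEs hyE).2
  have h4 := hcK y ⟨ball_subset_closedBall hy, hyu⟩
  rw [hg.ext_eq hy] at h4
  rw [mem_ball] at h3
  linarith

/-- chord function -/
theorem chord_formula (α β γ : ℝ) : 
    ((Complex.exp (γ * I) - Complex.exp (α * I)) * 
      (starRingEnd ℂ) (Complex.exp (β * I) - Complex.exp (α * I))).im = 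
      4 * (Real.sin ((γ - β) / 2) * Real.sin ((γ - α) / 2) * Real.sin ((β - α) / 2)) := by
  have h0 : ∀ t : ℝ, Complex.exp (t * I) = ⟨Real.cos t, Real.sin t⟩ := by
    intro t
    rw [Complex.exp_mul_I]
    apply Complex.ext <;> simp [Complex.cos_ofReal_re, Complex.sin_ofReal_re]
  rw [h0, h0, h0]
  simp only [Complex.mul_im, Complex.sub_re, Complex.sub_im, Complex.conj_re, Complex.conj_im]
  obtain ⟨x, hx⟩ : ∃ x, x = (γ - β) / 2 := ⟨_, rfl⟩
  obtain ⟨y, hy⟩ : ∃ y, y = (β - α) / 2 := ⟨_, rfl⟩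
  have h1 : (γ - α) / 2 = x + y := by rw [hx, hy]; ring
  have h2 : β = α + 2 * y := by rw [hy]; ring
  have h3 : γ = α + 2 * y + 2 * x := by rw [hx, hy]; ring
  rw [h1, ← hx, ← hy, h3, h2]
  simp only [Real.sin_add, Real.cos_add, Real.sin_two_mul, Real.cos_two_mul]
  have e1 := Real.sin_sq_add_cos_sq α
  have e2 := Real.sin_sq_add_cos_sq x
  have e3 := Real.sin_sq_add_cos_sq y
  have e1' : Real.sin α ^ 2 = 1 - Real.cos α ^ 2 := by linarith
  have e2' : Real.sin x ^ 2 = 1 - Real.cos x ^ 2 := by linarith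
  have e3' : Real.sin y ^ 2 = 1 - Real.cos y ^ 2 := by linarith
  ring_nf
  simp only [e1', e2', e3']
  ring_nf

/-- the value set of a boundary value contains one of the two arcs -/
theorem ConfMap.arc_aux {g : ℂ → ℂ} {U : Set ℂ} (hg : ConfMap g U) 
    (hb : Bornology.IsBounded U) (hlc : ∀ a ∈ frontier U, LocConnAt U a) {a : ℂ} {θ₁ θ₂ α β : ℝ} 
    (h1 : θ₁ < α) (h2 : α < θ₂) (h3 : θ₂ < β) (h4 : β < θ₁ + 2 * π) 
    (ha₁ : ext g (Complex.exp (θ₁ * I)) = a) (ha₂ : ext g (Complex.exp (θ₂ * I)) = a) 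
    (hα : ext g (Complex.exp (α * I)) ≠ a) (hβ : ext g (Complex.exp (β * I)) ≠ a) : False := by
  have hπ := Real.pi_pos
  obtain ⟨u, hu⟩ : ∃ u : ℂ → ℝ, u = fun z => -((z - Complex.exp (α * I)) * 
      (starRingEnd ℂ) (Complex.exp (β * I) - Complex.exp (α * I))).im := ⟨_, rfl⟩
  have hn : ∀ θ : ℝ, ‖Complex.exp (θ * I)‖ = 1 := fun θ => Complex.norm_exp_ofReal_mul_I θ
  have huγ : ∀ γ : ℝ, u (Complex.exp (γ * I)) = 
      -(4 * (Real.sin ((γ - β) / 2) * Real.sin ((γ - α) / 2) * Real.sin ((β - α) / 2))) := by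
    intro γ
    rw [hu]
    simp only
    rw [chord_formula]
  have hs0 : 0 < Real.sin ((β - α) / 2) := Real.sin_pos_of_pos_of_lt_pi (by linarith) (by linarith)
  have hu1 : u (Complex.exp (θ₁ * I)) < 0 := by
    rw [huγ]
    have s1 : Real.sin ((θ₁ - β) / 2) < 0 := Real.sin_neg_of_neg_of_neg_pi_lt (by linarith) (by linarith)
    have s2 : Real.sin ((θ₁ - α) / 2) < 0 := Real.sin_neg_of_neg_of_neg_pi_lt (by linarith) (by linarith)
    have := mul_pos (mul_pos_of_neg_of_neg s1 s2) hs0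
    linarith
  have hu2 : 0 < u (Complex.exp (θ₂ * I)) := by
    rw [huγ]
    have s1 : Real.sin ((θ₂ - β) / 2) < 0 := Real.sin_neg_of_neg_of_neg_pi_lt (by linarith) (by linarith)
    have s2 : 0 < Real.sin ((θ₂ - α) / 2) := Real.sin_pos_of_pos_of_lt_pi (by linarith) (by linarith)
    have := mul_neg_of_neg_of_pos (mul_neg_of_neg_of_pos s1 s2) hs0
    linarith
  obtain ⟨z, hz, hz0, hza⟩ := hg.no_separation hb hlc (hn θ₁) (hn θ₂) ha₁ ha₂ 
    (u := u) (by rw [hu]; fun_prop) hu1 hu2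
  have haf : a ∈ frontier U := ha₁ ▸ hg.ext_frontier hb hlc (hn θ₁)
  have haU : a ∉ U := by
    have := haf.2
    rwa [hg.isOpen.interior_eq] at this
  rcases lt_or_eq_of_le (mem_closedBall_zero_iff.1 hz) with h | h
  · rw [hg.ext_eq (mem_ball_zero_iff.2 h)] at hza
    exact haU (hza ▸ hg.mem (mem_ball_zero_iff.2 h))
  · obtain ⟨γ, hγ⟩ : ∃ γ : ℝ, Complex.exp (γ * I) = z := (Complex.norm_eq_one_iff z).1 h
    rw [← hγ, huγ] at hz0
    have h5 : Real.sin ((γ - β) / 2) = 0 ∨ Real.sin ((γ - α) / 2) = 0 := by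
      have : Real.sin ((γ - β) / 2) * Real.sin ((γ - α) / 2) = 0 := by
        by_contra hne
        have := mul_ne_zero hne hs0.ne'
        apply this
        linarith
      exact mul_eq_zero.1 this
    have key : ∀ τ : ℝ, Real.sin ((γ - τ) / 2) = 0 → Complex.exp (γ * I) = Complex.exp (τ * I) := by
      intro τ hτ
      obtain ⟨k, hk⟩ := Real.sin_eq_zero_iff.1 hτ
      rw [Complex.exp_eq_exp_iff_exists_int]
      refine ⟨k, ?_⟩
      have h6 : γ = τ + k * (2 * π) := by linarith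
      rw [h6]
      push_cast
      ring
    rcases h5 with h5 | h5
    · rw [← hγ, key β h5] at hza
      exact hβ hza
    · rw [← hγ, key α h5] at hza
      exact hα hza

/-- the boundary function is not constant on an arc -/
theorem ConfMap.no_arc {g : ℂ → ℂ} {U : Set ℂ} (hg : ConfMap g U) 
    (hb : Bornology.IsBounded U) (hlc : ∀ a ∈ frontier U, LocConnAt U a) {a : ℂ} {s t : ℝ} 
    (hst : s < t) (h : ∀ θ ∈ Ioo s t, ext g (Complex.exp (θ * I)) = a) : False := by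
  have hπ := Real.pi_pos
  have haU : a ∉ U := by
    have h1 := h ((s + t) / 2) ⟨by linarith, by linarith⟩
    have haf : a ∈ frontier U := h1 ▸ hg.ext_frontier hb hlc (Complex.norm_exp_ofReal_mul_I _)
    have := haf.2
    rwa [hg.isOpen.interior_eq] at this
  obtain ⟨n, hn⟩ := exists_nat_gt (2 * π / (t - s))
  have hn0 : 0 < n := by
    have h1 : 0 < 2 * π / (t - s) := div_pos (by positivity) (by linarith)
    have h2 : (0 : ℝ) < n := h1.trans hn
    exact_mod_cast h2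
  have hn0' : (0 : ℝ) < n := by exact_mod_cast hn0
  have hstep : 2 * π / n < t - s := by
    rw [div_lt_iff₀ (by linarith)] at hn
    rw [div_lt_iff₀ hn0']
    linarith
  have hrot : ∀ k : ℕ, ∀ z : ℂ, ‖Complex.exp (((2 * π * k / n : ℝ) : ℂ) * I) * z‖ = ‖z‖ := by
    intro k z
    rw [norm_mul, Complex.norm_exp_ofReal_mul_I, one_mul]
  obtain ⟨H, hH⟩ : ∃ H : ℂ → ℂ, H = fun z => ∏ k ∈ Finset.range n, 
      (ext g (Complex.exp (((2 * π * k / n : ℝ) : ℂ) * I) * z) - a) := ⟨_, rfl⟩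
  have hGc := hg.continuousOn_ext hb hlc
  have hGd : DifferentiableOn ℂ (ext g) (ball 0 1) := hg.diff.congr (fun z hz => hg.ext_eq hz)
  have hHc : DiffContOnCl ℂ H (ball 0 1) := by
    constructor
    · rw [hH]
      refine DifferentiableOn.fun_finsetProd (fun k _ => ?_)
      refine DifferentiableOn.sub_const ?_ _
      refine hGd.comp (by fun_prop) (fun z hz => ?_)
      rw [mem_ball_zero_iff] at hz ⊢
      rw [hrot]; exact hz
    · rw [closure_ball _ one_ne_zero, hH]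
      refine continuousOn_finsetProd _ (fun k _ => ?_)
      refine ContinuousOn.sub ?_ continuousOn_const
      refine hGc.comp (by fun_prop) (fun z hz => ?_)
      rw [mem_closedBall_zero_iff] at hz ⊢
      rw [hrot]; exact hz
  have hH0 : EqOn H (fun _ => 0) (frontier (ball (0 : ℂ) 1)) := by
    intro z hz
    rw [frontier_ball _ one_ne_zero, mem_sphere_zero_iff_norm] at hz
    obtain ⟨θ, hθ⟩ : ∃ θ : ℝ, Complex.exp (θ * I) = z := (Complex.norm_eq_one_iff z).1 hz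
    -- find m with θ + 2π m/n ∈ (s,t)
    obtain ⟨m, hm1, hm2⟩ : ∃ m : ℤ, s < θ + m * (2 * π / n) ∧ θ + m * (2 * π / n) < t := by
      have hw : 0 < 2 * π / n := by positivity
      refine ⟨⌊(s - θ) / (2 * π / n)⌋ + 1, ?_, ?_⟩
      · have := Int.lt_floor_add_one ((s - θ) / (2 * π / n))
        rw [div_lt_iff₀ hw] at this
        push_cast
        linarith
      · have := Int.floor_le ((s - θ) / (2 * π / n))
        rw [le_div_iff₀ hw] at this
        push_cast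
        have h2 : θ + (⌊(s - θ) / (2 * π / n)⌋ + 1) * (2 * π / n) = 
          θ + ⌊(s - θ) / (2 * π / n)⌋ * (2 * π / n) + 2 * π / n := by ring
        rw [h2]
        linarith
    obtain ⟨k, hk⟩ : ∃ k : ℕ, k = (m % (n : ℤ)).toNat := ⟨_, rfl⟩
    have hnz : (n : ℤ) ≠ 0 := by exact_mod_cast hn0.ne'
    have hk1 : (k : ℤ) = m % (n : ℤ) := by
      rw [hk]; exact Int.toNat_of_nonneg (Int.emod_nonneg _ hnz)
    have hkn : k < n := by
      have : (k : ℤ) < n := by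
        rw [hk1]; exact Int.emod_lt_of_pos _ (by exact_mod_cast hn0)
      exact_mod_cast this
    have hval : Complex.exp (((2 * π * k / n : ℝ) : ℂ) * I) * z = 
        Complex.exp (((θ + m * (2 * π / n) : ℝ) : ℂ) * I) := by
      rw [← hθ, ← Complex.exp_add, Complex.exp_eq_exp_iff_exists_int]
      refine ⟨-(m / (n : ℤ)), ?_⟩
      have h1 : (m : ℤ) = k + n * (m / (n : ℤ)) := by
        rw [hk1]; exact (Int.emod_add_mul_ediv m n).symm
      have h2 : (m : ℂ) = k + n * ((m / (n : ℤ) : ℤ) : ℂ) := by exact_mod_cast h1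
      have h3 : (n : ℂ) ≠ 0 := by exact_mod_cast hn0.ne'
      push_cast
      rw [h2]
      field_simp
      ring
    rw [hH]
    refine Finset.prod_eq_zero (Finset.mem_range.2 hkn) ?_
    rw [hval, h _ ⟨hm1, hm2⟩, sub_self]
  have hall := Complex.eqOn_closure_of_eqOn_frontier isBounded_ball hHc diffContOnCl_const hH0
  have h0 := hall (subset_closure (mem_ball_self one_pos : (0 : ℂ) ∈ ball 0 1))
  rw [hH] at h0
  simp only [mul_zero] at h0
  rw [Finset.prod_eq_zero_iff] at h0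
  obtain ⟨k, _, hk⟩ := h0
  rw [hg.ext_eq (mem_ball_self one_pos), sub_eq_zero] at hk
  exact haU (hk ▸ hg.mem (mem_ball_self one_pos))

/-- injectivity on the circle -/
theorem ConfMap.injOn_sphere {g : ℂ → ℂ} {U : Set ℂ} (hg : ConfMap g U) 
    (hb : Bornology.IsBounded U) (hlc : ∀ a ∈ frontier U, LocConnAt U a) : 
    InjOn (ext g) (sphere 0 1) := by
  have hπ := Real.pi_pos
  have main : ∀ θ₁ θ₂ : ℝ, θ₁ < θ₂ → θ₂ < θ₁ + 2 * π → 
      ext g (Complex.exp (θ₁ * I)) ≠ ext g (Complex.exp (θ₂ * I)) := by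
    intro θ₁ θ₂ h1 h2 heq
    by_cases hα : ∀ α ∈ Ioo θ₁ θ₂, ext g (Complex.exp (α * I)) = ext g (Complex.exp (θ₂ * I))
    · exact hg.no_arc hb hlc h1 hα
    · by_cases hβ : ∀ β ∈ Ioo θ₂ (θ₁ + 2 * π), 
          ext g (Complex.exp (β * I)) = ext g (Complex.exp (θ₂ * I))
      · exact hg.no_arc hb hlc h2 hβ
      · push Not at hα hβ
        obtain ⟨α, hα1, hα2⟩ := hα
        obtain ⟨β, hβ1, hβ2⟩ := hβ
        exact hg.arc_aux hb hlc hα1.1 hα1.2 hβ1.1 hβ1.2 heq rfl hα2 hβ2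
  intro z hz w hw h
  rw [mem_sphere_zero_iff_norm] at hz hw
  have key : ∀ z : ℂ, ‖z‖ = 1 → ∃ θ : ℝ, -π < θ ∧ θ ≤ π ∧ Complex.exp (θ * I) = z := by
    intro z hz
    refine ⟨Complex.arg z, Complex.neg_pi_lt_arg z, Complex.arg_le_pi z, ?_⟩
    have := Complex.norm_mul_exp_arg_mul_I z
    rw [hz] at this
    simpa using this
  obtain ⟨θ₁, h1, h2, rfl⟩ := key z hz
  obtain ⟨θ₂, h3, h4, rfl⟩ := key w hw
  rcases lt_trichotomy θ₁ θ₂ with hlt | heq | hlt
  · exact absurd h (main _ _ hlt (by linarith))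
  · rw [heq]
  · exact absurd h.symm (main _ _ hlt (by linarith))

/-- **Caratheodory's theorem**: a conformal map of the disc onto a bounded domain which is locally 
connected at its boundary points extends to a homeomorphism of the closures. -/
theorem caratheodory {g : ℂ → ℂ} {U : Set ℂ} (hg : ConfMap g U) 
    (hb : Bornology.IsBounded U) (hlc : ∀ a ∈ frontier U, LocConnAt U a) :
    ∃ G : ℂ → ℂ, ContinuousOn G (closedBall 0 1) ∧ InjOn G (closedBall 0 1) ∧ 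
      G '' closedBall 0 1 = closure U ∧ G '' sphere 0 1 = frontier U ∧ G '' ball 0 1 = U ∧
      ∀ z ∈ ball (0 : ℂ) 1, G z = g z := by
  have hGc := hg.continuousOn_ext hb hlc
  have hin : ext g '' ball 0 1 = U := by
    rw [← hg.image]
    exact image_congr (fun z hz => hg.ext_eq hz)
  have hcl : ext g '' closedBall 0 1 = closure U := by
    apply Subset.antisymm
    · rintro _ ⟨z, hz, rfl⟩
      rcases lt_or_eq_of_le (mem_closedBall_zero_iff.1 hz) with h | h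
      · rw [hg.ext_eq (mem_ball_zero_iff.2 h)]
        exact subset_closure (hg.mem (mem_ball_zero_iff.2 h))
      · exact (hg.ext_frontier hb hlc h).1
    · refine closure_minimal ?_ ((isCompact_closedBall 0 1).image_of_continuousOn hGc).isClosed
      rw [← hin]
      exact image_mono ball_subset_closedBall
  refine ⟨ext g, hGc, ?_, hcl, ?_, hin, fun z hz => hg.ext_eq hz⟩
  · intro z hz w hw h
    rcases lt_or_eq_of_le (mem_closedBall_zero_iff.1 hz) with h1 | h1 <;>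
    rcases lt_or_eq_of_le (mem_closedBall_zero_iff.1 hw) with h2 | h2
    · rw [hg.ext_eq (mem_ball_zero_iff.2 h1), hg.ext_eq (mem_ball_zero_iff.2 h2)] at h
      exact hg.inj (mem_ball_zero_iff.2 h1) (mem_ball_zero_iff.2 h2) h
    · exfalso
      rw [hg.ext_eq (mem_ball_zero_iff.2 h1)] at h
      have h3 := hg.ext_frontier hb hlc h2
      rw [← h, frontier, hg.isOpen.interior_eq] at h3
      exact h3.2 (hg.mem (mem_ball_zero_iff.2 h1))
    · exfalso
      rw [hg.ext_eq (mem_ball_zero_iff.2 h2)] at h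
      have h3 := hg.ext_frontier hb hlc h1
      rw [h, frontier, hg.isOpen.interior_eq] at h3
      exact h3.2 (hg.mem (mem_ball_zero_iff.2 h2))
    · exact hg.injOn_sphere hb hlc (mem_sphere_zero_iff_norm.2 h1) (mem_sphere_zero_iff_norm.2 h2) h
  · apply Subset.antisymm
    · rintro _ ⟨z, hz, rfl⟩
      exact hg.ext_frontier hb hlc (mem_sphere_zero_iff_norm.1 hz)
    · intro w hw
      have h1 : w ∈ ext g '' closedBall 0 1 := by rw [hcl]; exact hw.1
      obtain ⟨z, hz, rfl⟩ := h1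
      rcases lt_or_eq_of_le (mem_closedBall_zero_iff.1 hz) with h | h
      · exfalso
        rw [frontier, hg.isOpen.interior_eq] at hw
        apply hw.2
        rw [hg.ext_eq (mem_ball_zero_iff.2 h)]
        exact hg.mem (mem_ball_zero_iff.2 h)
      · exact ⟨z, mem_sphere_zero_iff_norm.2 h, rfl⟩

/-- homeomorphism form -/
theorem caratheodory_homeo {g : ℂ → ℂ} {U : Set ℂ} (hg : ConfMap g U) 
    (hb : Bornology.IsBounded U) (hlc : ∀ a ∈ frontier U, LocConnAt U a) :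
    ∃ Φ : closedBall (0 : ℂ) 1 ≃ₜ closure U, 
      (∀ z : closedBall (0 : ℂ) 1, (z : ℂ) ∈ ball (0 : ℂ) 1 → (Φ z : ℂ) = g z) ∧ 
      (∀ z : closedBall (0 : ℂ) 1, (Φ z : ℂ) ∈ frontier U ↔ (z : ℂ) ∈ sphere (0 : ℂ) 1) := by
  obtain ⟨G, hc, hi, hcl, hsp, hba, hgG⟩ := caratheodory hg hb hlc
  have hmaps : MapsTo G (closedBall 0 1) (closure U) := by
    rw [← hcl]; exact mapsTo_image _ _
  obtain ⟨e, he⟩ : ∃ e : closedBall (0 : ℂ) 1 ≃ closure U, ∀ z, (e z : ℂ) = G z := by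
    refine ⟨Equiv.ofBijective (hmaps.restrict) ⟨?_, ?_⟩, fun z => rfl⟩
    · intro z w h
      have := congrArg Subtype.val h
      exact Subtype.ext (hi z.2 w.2 this)
    · intro w
      have h1 : (w : ℂ) ∈ G '' closedBall 0 1 := by rw [hcl]; exact w.2
      obtain ⟨z, hz, hzw⟩ := h1
      exact ⟨⟨z, hz⟩, Subtype.ext hzw⟩
  have hec : Continuous e := by
    rw [Topology.IsInducing.subtypeVal.continuous_iff]
    have : (Subtype.val ∘ e) = fun z : closedBall (0 : ℂ) 1 => G z := funext he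
    rw [this]
    exact hc.comp_continuous continuous_subtype_val (fun z => z.2)
  have hcs : CompactSpace (closedBall (0 : ℂ) 1) := isCompact_iff_compactSpace.1 (isCompact_closedBall 0 1)
  refine ⟨hec.homeoOfEquivCompactToT2, ?_, ?_⟩
  · intro z hz
    show (e z : ℂ) = g z
    rw [he, hgG _ hz]
  · intro z
    show (e z : ℂ) ∈ frontier U ↔ _
    rw [he]
    constructor
    · intro h
      rw [← hsp] at h
      obtain ⟨w, hw, hwz⟩ := h
      have := hi (sphere_subset_closedBall hw) z.2 hwz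
      rw [← this]; exact hw
    · intro h
      rw [← hsp]; exact ⟨z, h, rfl⟩

/-- existence of the closed-disc parametrisation of a bounded simply connected domain which is 
locally connected at its boundary points -/
theorem exists_homeo_closedBall {U : Set ℂ} (hU : IsOpen U) (hb : Bornology.IsBounded U) 
    (hc : IsPreconnected U) (hs : SqrtDom U) {a : ℂ} (ha : a ∈ U) 
    (hlc : ∀ a ∈ frontier U, LocConnAt U a) :
    ∃ g : ℂ → ℂ, ConfMap g U ∧ g 0 = a ∧ ∃ Φ : closedBall (0 : ℂ) 1 ≃ₜ closure U, 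
      (∀ z : closedBall (0 : ℂ) 1, (z : ℂ) ∈ ball (0 : ℂ) 1 → (Φ z : ℂ) = g z) ∧ 
      (∀ z : closedBall (0 : ℂ) 1, (Φ z : ℂ) ∈ frontier U ↔ (z : ℂ) ∈ sphere (0 : ℂ) 1) := by
  have hne : U ≠ univ := by
    rintro rfl
    exact NormedSpace.unbounded_univ ℂ ℂ hb
  obtain ⟨f, hf, hfi, hfU, hfa, _⟩ := riemann_sqrt hU hc hne hs ha
  obtain ⟨g, hg, hgf, hfg⟩ := inverse_diff hU hf hfi hfU
  have hconf : ConfMap g U := by
    refine ⟨hg, ?_, ?_⟩
    · intro z hz w hw h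
      rw [← (hgf z hz).2, ← (hgf w hw).2, h]
    · apply Subset.antisymm
      · rintro _ ⟨z, hz, rfl⟩
        exact (hgf z hz).1
      · intro w hw
        refine ⟨f w, ?_, hfg w hw⟩
        rw [← hfU]; exact ⟨w, hw, rfl⟩
  refine ⟨g, hconf, ?_, caratheodory_homeo hconf hb hlc⟩
  rw [← hfa]; exact hfg a ha

end Pool.LibRMT
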