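import Pool.Agent.LibRMT.Riemann

open Set Filter Topology Metric Complex MeasureTheory
open scoped Real ENNReal

namespace Pool.LibRMT

theorem det_smul_one (c : ℂ) : (c • (1 : ℂ →L[ℝ] ℂ)).det = ‖c‖ ^ 2 := by
  have h1 : (c • (1 : ℂ →L[ℝ] ℂ)).det = LinearMap.det (LinearMap.mul ℝ ℂ c) := by
    unfold ContinuousLinearMap.det
    congr 1
  have h2 : LinearMap.det (LinearMap.mul ℝ ℂ c) = Algebra.norm ℝ c := rfl
  rw [h1, h2, Algebra.norm_complex_apply, Complex.normSq_eq_norm_sq]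

theorem lintegral_deriv_sq {g : ℂ → ℂ} {U S : Set ℂ} (hU : IsOpen U) (hg : DifferentiableOn ℂ g U)
    (hi : InjOn g U) (hS : MeasurableSet S) (hSU : S ⊆ U) :
    ∫⁻ z in S, ENNReal.ofReal (‖deriv g z‖ ^ 2) = volume (g '' S) := by
  have h := lintegral_abs_det_fderiv_eq_addHaar_image volume hS (f := g)
    (f' := fun z => deriv g z • (1 : ℂ →L[ℝ] ℂ))
    (fun z hz => ((hg.differentiableAt
      (hU.mem_nhds (hSU hz))).hasDerivAt.complexToReal_fderiv).hasFDerivWithinAt) (hi.mono hSU)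
  rw [← h]
  refine lintegral_congr fun z => ?_
  rw [det_smul_one, abs_of_nonneg (by positivity)]

/-- the point of the circle of radius `ρ` around `-1` with angle `θ` -/
noncomputable def pt (ρ θ : ℝ) : ℂ := -1 + Complex.polarCoord.symm (ρ, θ)

theorem pt_eq (ρ θ : ℝ) : pt ρ θ = -1 + ρ * (Real.cos θ + Real.sin θ * Complex.I) := by
  rw [pt, Complex.polarCoord_symm_apply]

/-- the density on circles -/
noncomputable def dens (g : ℂ → ℂ) (z : ℂ) : ℝ≥0∞ :=
  (ball (0 : ℂ) 1).indicator (fun z => ENNReal.ofReal (‖deriv g z‖ ^ 2)) z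

theorem measurable_dens (g : ℂ → ℂ) : Measurable (dens g) := by
  unfold dens
  refine Measurable.indicator ?_ measurableSet_ball
  exact ((measurable_deriv g).norm.pow_const 2).ennreal_ofReal

theorem continuous_pt : Continuous (fun p : ℝ × ℝ => pt p.1 p.2) := by
  simp only [pt_eq]
  fun_prop

theorem lintegral_polar {g : ℂ → ℂ} (hg : DifferentiableOn ℂ g (ball 0 1)) (hi : InjOn g (ball 0 1)) :
    ∫⁻ ρ in Ioi (0 : ℝ), ∫⁻ θ in Ioo (-π) π, ENNReal.ofReal ρ * dens g (pt ρ θ) = 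
      volume (g '' ball 0 1) := by
  have h1 : ∫⁻ z, dens g (-1 + z) = volume (g '' ball 0 1) := by
    rw [lintegral_add_left_eq_self (fun z => dens g z) (-1)]
    unfold dens
    rw [lintegral_indicator measurableSet_ball]
    exact lintegral_deriv_sq isOpen_ball hg hi measurableSet_ball (Subset.refl _)
  rw [← h1, ← Complex.lintegral_comp_polarCoord_symm]
  have h2 : (volume : Measure (ℝ × ℝ)).restrict (Ioi 0 ×ˢ Ioo (-π) π) = 
      (volume.restrict (Ioi 0)).prod (volume.restrict (Ioo (-π) π)) := by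
    rw [Measure.prod_restrict]
    rfl
  have h3 : Measurable (fun p : ℝ × ℝ => ENNReal.ofReal p.1 * dens g (pt p.1 p.2)) := 
    (measurable_fst.ennreal_ofReal).mul ((measurable_dens g).comp continuous_pt.measurable)
  have h4 : polarCoord.target = Ioi (0 : ℝ) ×ˢ Ioo (-π) π := rfl
  rw [h4, h2, lintegral_prod _ (by exact h3.aemeasurable)]
  rfl

theorem exists_small_energy {g : ℂ → ℂ} (hg : DifferentiableOn ℂ g (ball 0 1)) 
    (hi : InjOn g (ball 0 1)) (hb : volume (g '' ball 0 1) ≠ ⊤) {η : ℝ} (hη : 0 < η) {δ : ℝ} 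
    (hδ : 0 < δ) : ∃ ρ ∈ Ioo 0 δ, 
      ∫⁻ θ in Ioo (-π) π, ENNReal.ofReal ρ * dens g (pt ρ θ) ≤ ENNReal.ofReal (η / ρ) := by
  by_contra hcon
  push Not at hcon
  have h1 : ∫⁻ ρ in Ioo (0 : ℝ) δ, ENNReal.ofReal (η / ρ) ≤ volume (g '' ball 0 1) := by
    rw [← lintegral_polar hg hi]
    calc ∫⁻ ρ in Ioo (0 : ℝ) δ, ENNReal.ofReal (η / ρ) 
        ≤ ∫⁻ ρ in Ioo (0 : ℝ) δ, ∫⁻ θ in Ioo (-π) π, ENNReal.ofReal ρ * dens g (pt ρ θ) := 
          setLIntegral_mono' measurableSet_Ioo (fun ρ hρ => (hcon ρ hρ).le)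
      _ ≤ _ := lintegral_mono_set Ioo_subset_Ioi_self
  have h2 : ∫⁻ ρ in Ioo (0 : ℝ) δ, ENNReal.ofReal (η / ρ) < ⊤ := lt_of_le_of_lt h1 hb.lt_top
  have h3 : IntegrableOn (fun ρ : ℝ => η / ρ) (Ioo 0 δ) := by
    refine ⟨(measurable_const.div measurable_id).aestronglyMeasurable, ?_⟩
    rw [hasFiniteIntegral_iff_ofReal]
    · exact h2
    · filter_upwards [ae_restrict_mem measurableSet_Ioo] with ρ hρ
      exact (div_pos hη hρ.1).le
  have h4 : IntegrableOn (fun ρ : ℝ => ρ⁻¹) (Ioo 0 δ) := by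
    have := h3.const_mul (η⁻¹)
    refine this.congr ?_
    filter_upwards with ρ
    field_simp
  have h5 : IntervalIntegrable (fun ρ : ℝ => ρ⁻¹) volume 0 δ := by
    rw [intervalIntegrable_iff_integrableOn_Ioo_of_le hδ.le]
    exact h4
  rw [intervalIntegrable_inv_iff] at h5
  rcases h5 with h5 | h5
  · exact hδ.ne h5
  · exact h5 left_mem_uIcc

theorem norm_pt_lt {ρ θ : ℝ} (hρ : 0 < ρ) : ‖pt ρ θ‖ < 1 ↔ ρ < 2 * Real.cos θ := by
  have h1 : ‖pt ρ θ‖ ^ 2 = 1 - ρ * (2 * Real.cos θ - ρ) := by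
    rw [← Complex.normSq_eq_norm_sq, pt_eq, Complex.normSq_apply]
    simp only [Complex.add_re, Complex.neg_re, Complex.one_re, Complex.mul_re, Complex.ofReal_re, 
      Complex.ofReal_im, Complex.add_im, Complex.mul_im, Complex.I_re, Complex.I_im, Complex.neg_im,
      Complex.one_im]
    have := Real.sin_sq_add_cos_sq θ
    linear_combination (ρ ^ 2) * this
  rw [← sq_lt_one_iff₀ (norm_nonneg _), h1]
  constructor
  · intro h
    have : 0 < ρ * (2 * Real.cos θ - ρ) := by linarith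
    have := (pos_iff_pos_of_mul_pos this).1 hρ
    linarith
  · intro h
    have : 0 < ρ * (2 * Real.cos θ - ρ) := mul_pos hρ (by linarith)
    linarith

theorem exists_angle {ρ : ℝ} (hρ : 0 < ρ) {z : ℂ} (hz : ‖z‖ < 1) (hzρ : ‖z + 1‖ = ρ) : 
    ∃ θ ∈ Ioo (-(π / 2)) (π / 2), z = pt ρ θ := by
  have hre : 0 < (z + 1).re := by
    have h1 : |z.re| ≤ ‖z‖ := Complex.abs_re_le_norm z
    have h2 := (abs_le.1 h1).1
    rw [Complex.add_re, Complex.one_re]
    linarith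
  refine ⟨Complex.arg (z + 1), ?_, ?_⟩
  · rw [mem_Ioo, ← abs_lt]
    exact Complex.abs_arg_lt_pi_div_two_iff.2 (Or.inl hre)
  · rw [pt_eq, ← hzρ]
    have h := Complex.norm_mul_cos_add_sin_mul_I (z + 1)
    push_cast at h ⊢
    rw [h]
    ring

theorem hasDerivAt_pt (ρ θ : ℝ) : 
    HasDerivAt (fun θ : ℝ => pt ρ θ) (ρ * (-Real.sin θ + Real.cos θ * Complex.I)) θ := by
  simp only [pt_eq]
  have h1 : HasDerivAt (fun θ : ℝ => (Real.cos θ : ℂ)) ((-Real.sin θ : ℝ) : ℂ) θ := 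
    (Real.hasDerivAt_cos θ).ofReal_comp
  have h2 : HasDerivAt (fun θ : ℝ => (Real.sin θ : ℂ)) ((Real.cos θ : ℝ) : ℂ) θ := 
    (Real.hasDerivAt_sin θ).ofReal_comp
  have h3 := ((h1.add (h2.mul_const Complex.I)).const_mul (ρ : ℂ)).const_add (-1)
  have h4 : ((-Real.sin θ : ℝ) : ℂ) = -(Real.sin θ : ℂ) := by push_cast; ring
  rw [h4] at h3
  exact h3

theorem cos_ge_min {a b θ : ℝ} (ha : -(π / 2) < a) (hb : b < π / 2) (h1 : a ≤ θ) (h2 : θ ≤ b) : 
    min (Real.cos a) (Real.cos b) ≤ Real.cos θ := by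
  rcases le_total 0 θ with h | h
  · refine (min_le_right _ _).trans ?_
    exact Real.cos_le_cos_of_nonneg_of_le_pi h (by linarith [Real.pi_pos]) h2
  · refine (min_le_left _ _).trans ?_
    rw [← Real.cos_neg a, ← Real.cos_neg θ]
    exact Real.cos_le_cos_of_nonneg_of_le_pi (by linarith) (by linarith [Real.pi_pos]) (by linarith)

/-- oscillation of `g` on a small circle around `-1` -/
theorem osc_of_energy {g : ℂ → ℂ} (hg : DifferentiableOn ℂ g (ball 0 1)) {ε ρ : ℝ} (hε : 0 < ε) 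
    (hρ : 0 < ρ) (hE : ∫⁻ θ in Ioo (-π) π, ENNReal.ofReal ρ * dens g (pt ρ θ) ≤ 
      ENNReal.ofReal ((ε ^ 2 / (2 * π)) / ρ)) {a b : ℝ} (ha : -(π / 2) < a) (hb : b < π / 2) 
    (hab : a ≤ b) (hza : ‖pt ρ a‖ < 1) (hzb : ‖pt ρ b‖ < 1) : ‖g (pt ρ b) - g (pt ρ a)‖ ≤ ε := by
  have hπ := Real.pi_pos
  have hin : ∀ θ ∈ Icc a b, ‖pt ρ θ‖ < 1 := by
    intro θ hθ
    rw [norm_pt_lt hρ] at hza hzb ⊢
    have := cos_ge_min ha hb hθ.1 hθ.2
    rcases min_le_iff.1 this with h | h <;> linarith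
  have hinb : ∀ θ ∈ Icc a b, pt ρ θ ∈ ball (0 : ℂ) 1 := fun θ hθ => by
    rw [mem_ball, dist_zero_right]; exact hin θ hθ
  have hgd : ContinuousOn (deriv g) (ball 0 1) := 
    ((hg.analyticOnNhd isOpen_ball).deriv).continuousOn
  have hptc : Continuous (fun θ : ℝ => pt ρ θ) := 
    continuous_pt.comp (continuous_const.prodMk continuous_id)
  have hgc : ContinuousOn (fun θ : ℝ => deriv g (pt ρ θ)) (Icc a b) := 
    hgd.comp hptc.continuousOn hinb
  have hder : ∀ θ ∈ uIcc a b, HasDerivAt (fun θ : ℝ => g (pt ρ θ)) 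
      (deriv g (pt ρ θ) * (ρ * (-Real.sin θ + Real.cos θ * Complex.I))) θ := by
    intro θ hθ
    rw [uIcc_of_le hab] at hθ
    have h1 : HasDerivAt g (deriv g (pt ρ θ)) (pt ρ θ) := 
      (hg.differentiableAt (isOpen_ball.mem_nhds (hinb θ hθ))).hasDerivAt
    exact h1.comp θ (hasDerivAt_pt ρ θ)
  have hcont : ContinuousOn (fun θ : ℝ => deriv g (pt ρ θ) * 
      (ρ * (-Real.sin θ + Real.cos θ * Complex.I))) (uIcc a b) := by
    rw [uIcc_of_le hab]
    refine hgc.mul (Continuous.continuousOn ?_)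
    fun_prop
  have hFTC := intervalIntegral.integral_eq_sub_of_hasDerivAt hder hcont.intervalIntegrable
  rw [← hFTC]
  obtain ⟨t, ht⟩ : ∃ t : ℝ, t = ε / (2 * π) := ⟨_, rfl⟩
  have htp : 0 < t := by rw [ht]; positivity
  have hsqc : ContinuousOn (fun θ : ℝ => ρ ^ 2 * ‖deriv g (pt ρ θ)‖ ^ 2) (Icc a b) := 
    continuousOn_const.mul (hgc.norm.pow 2)
  have hsqi : IntervalIntegrable (fun θ : ℝ => ρ ^ 2 * ‖deriv g (pt ρ θ)‖ ^ 2) volume a b := by
    refine ContinuousOn.intervalIntegrable ?_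
    rw [uIcc_of_le hab]; exact hsqc
  have hint : ∫ θ in a..b, ρ ^ 2 * ‖deriv g (pt ρ θ)‖ ^ 2 ≤ ε ^ 2 / (2 * π) := by
    have h1 : ENNReal.ofReal (∫ θ in a..b, ρ ^ 2 * ‖deriv g (pt ρ θ)‖ ^ 2) ≤ 
        ENNReal.ofReal (ε ^ 2 / (2 * π)) := by
      rw [intervalIntegral.integral_of_le hab, ofReal_integral_eq_lintegral_ofReal]
      · calc ∫⁻ θ in Ioc a b, ENNReal.ofReal (ρ ^ 2 * ‖deriv g (pt ρ θ)‖ ^ 2) 
            ≤ ∫⁻ θ in Ioc a b, ENNReal.ofReal ρ * (ENNReal.ofReal ρ * dens g (pt ρ θ)) := by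
              refine setLIntegral_mono' measurableSet_Ioc (fun θ hθ => ?_)
              rw [dens, indicator_of_mem (hinb θ (Ioc_subset_Icc_self hθ)), 
                ← ENNReal.ofReal_mul hρ.le, ← ENNReal.ofReal_mul hρ.le]
              refine ENNReal.ofReal_le_ofReal (le_of_eq ?_)
              ring
          _ ≤ ∫⁻ θ in Ioo (-π) π, ENNReal.ofReal ρ * (ENNReal.ofReal ρ * dens g (pt ρ θ)) := by
              refine lintegral_mono_set ?_
              intro θ hθ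
              exact ⟨by linarith [hθ.1], by linarith [hθ.2]⟩
          _ = ENNReal.ofReal ρ * ∫⁻ θ in Ioo (-π) π, ENNReal.ofReal ρ * dens g (pt ρ θ) := by
              rw [lintegral_const_mul' _ _ ENNReal.ofReal_ne_top]
          _ ≤ ENNReal.ofReal ρ * ENNReal.ofReal ((ε ^ 2 / (2 * π)) / ρ) := by gcongr
          _ = ENNReal.ofReal (ε ^ 2 / (2 * π)) := by
              rw [← ENNReal.ofReal_mul hρ.le]
              congr 1
              field_simp
      · exact hsqc.integrableOn_Icc.mono_set Ioc_subset_Icc_self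
      · filter_upwards with θ
        positivity
    exact (ENNReal.ofReal_le_ofReal_iff (by positivity)).1 h1
  calc ‖∫ θ in a..b, deriv g (pt ρ θ) * (ρ * (-Real.sin θ + Real.cos θ * Complex.I))‖ 
      ≤ ∫ θ in a..b, (t / 2 + (1 / (2 * t)) * (ρ ^ 2 * ‖deriv g (pt ρ θ)‖ ^ 2)) := by
        refine intervalIntegral.norm_integral_le_of_norm_le hab ?_ ?_
        · filter_upwards with θ hθ
          have h1 : ‖(-Real.sin θ + Real.cos θ * Complex.I : ℂ)‖ = 1 := by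
            have h2 : ‖(-Real.sin θ + Real.cos θ * Complex.I : ℂ)‖ ^ 2 = 1 := by
              rw [← Complex.normSq_eq_norm_sq, Complex.normSq_apply]
              simp only [Complex.add_re, Complex.neg_re, Complex.ofReal_re, Complex.mul_re, 
                Complex.I_re, Complex.ofReal_im, Complex.I_im, Complex.add_im, Complex.neg_im, 
                Complex.mul_im]
              have := Real.sin_sq_add_cos_sq θ
              linear_combination this
            exact (pow_eq_one_iff_of_nonneg (norm_nonneg _) two_ne_zero).1 h2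
          rw [norm_mul, norm_mul, h1, mul_one, Complex.norm_real, Real.norm_eq_abs, abs_of_pos hρ]
          obtain ⟨u, hu⟩ : ∃ u : ℝ, u = ‖deriv g (pt ρ θ)‖ * ρ := ⟨_, rfl⟩
          have h4 : ρ ^ 2 * ‖deriv g (pt ρ θ)‖ ^ 2 = u ^ 2 := by rw [hu]; ring
          rw [h4, ← hu]
          have h5 : t / 2 + 1 / (2 * t) * u ^ 2 - u = (t - u) ^ 2 / (2 * t) := by
            field_simp
            ring
          have h6 : 0 ≤ (t - u) ^ 2 / (2 * t) := by positivity
          linarith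
        · exact intervalIntegrable_const.add (hsqi.const_mul _)
    _ = (b - a) * (t / 2) + (1 / (2 * t)) * ∫ θ in a..b, ρ ^ 2 * ‖deriv g (pt ρ θ)‖ ^ 2 := by
        rw [intervalIntegral.integral_add intervalIntegrable_const (hsqi.const_mul _), 
          intervalIntegral.integral_const, intervalIntegral.integral_const_mul, smul_eq_mul]
    _ ≤ π * (t / 2) + (1 / (2 * t)) * (ε ^ 2 / (2 * π)) := by
        gcongr
        linarith
    _ ≤ ε := by
        rw [ht]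
        have h1 : π * (ε / (2 * π) / 2) + 1 / (2 * (ε / (2 * π))) * (ε ^ 2 / (2 * π)) = 
          ε * (3 / 4) := by
          field_simp
          ring
        rw [h1]
        linarith

theorem exists_small_circle_aux {g : ℂ → ℂ} (hg : DifferentiableOn ℂ g (ball 0 1)) 
    (hi : InjOn g (ball 0 1)) (hb : volume (g '' ball 0 1) ≠ ⊤) {ε : ℝ} (hε : 0 < ε) {δ : ℝ} 
    (hδ : 0 < δ) : ∃ ρ ∈ Ioo 0 δ, ∀ z w : ℂ, ‖z‖ < 1 → ‖w‖ < 1 → ‖z + 1‖ = ρ → ‖w + 1‖ = ρ → 
      ‖g z - g w‖ ≤ ε := by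
  obtain ⟨ρ, hρ, hE⟩ := exists_small_energy hg hi hb (η := ε ^ 2 / (2 * π)) 
    (by have := Real.pi_pos; positivity) hδ
  refine ⟨ρ, hρ, fun z w hz hw hz1 hw1 => ?_⟩
  obtain ⟨a, ha, rfl⟩ := exists_angle hρ.1 hz hz1
  obtain ⟨b, hb, rfl⟩ := exists_angle hρ.1 hw hw1
  rcases le_total a b with h | h
  · rw [norm_sub_rev]
    exact osc_of_energy hg hε hρ.1 hE ha.1 hb.2 h hz hw
  · exact osc_of_energy hg hε hρ.1 hE hb.1 ha.2 h hw hz

/-- length-area principle: `g` has small oscillation on arbitrarily small circles around any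
boundary point -/
theorem exists_small_circle {g : ℂ → ℂ} (hg : DifferentiableOn ℂ g (ball 0 1)) 
    (hi : InjOn g (ball 0 1)) (hb : volume (g '' ball 0 1) ≠ ⊤) {ζ : ℂ} (hζ : ‖ζ‖ = 1) {ε : ℝ} 
    (hε : 0 < ε) {δ : ℝ} (hδ : 0 < δ) : ∃ ρ ∈ Ioo 0 δ, ∀ z w : ℂ, ‖z‖ < 1 → ‖w‖ < 1 → 
      ‖z - ζ‖ = ρ → ‖w - ζ‖ = ρ → ‖g z - g w‖ ≤ ε := by
  have hζ0 : ζ ≠ 0 := by
    intro h; rw [h, norm_zero] at hζ; exact zero_ne_one hζ
  have hmem : ∀ z : ℂ, -ζ * z ∈ ball (0 : ℂ) 1 ↔ z ∈ ball (0 : ℂ) 1 := by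
    intro z
    rw [mem_ball, mem_ball, dist_zero_right, dist_zero_right, norm_mul, norm_neg, hζ, one_mul]
  have himg : (fun z => g (-ζ * z)) '' ball 0 1 = g '' ball 0 1 := by
    ext w
    constructor
    · rintro ⟨z, hz, rfl⟩
      exact ⟨-ζ * z, (hmem z).2 hz, rfl⟩
    · rintro ⟨z, hz, rfl⟩
      refine ⟨-ζ⁻¹ * z, (hmem _).1 ?_, ?_⟩
      · have : -ζ * (-ζ⁻¹ * z) = z := by field_simp
        rw [this]; exact hz
      · have : -ζ * (-ζ⁻¹ * z) = z := by field_simp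
        simp only [this]
  obtain ⟨ρ, hρ, h⟩ := exists_small_circle_aux (g := fun z => g (-ζ * z)) 
    (hg.comp (by fun_prop) (fun z hz => (hmem z).2 hz)) 
    (by
      intro z hz w hw hzw
      have := hi ((hmem z).2 hz) ((hmem w).2 hw) hzw
      exact mul_left_cancel₀ (neg_ne_zero.2 hζ0) this) 
    (by rw [himg]; exact hb) hε hδ
  refine ⟨ρ, hρ, fun z w hz hw hz1 hw1 => ?_⟩
  have key : ∀ z : ℂ, ‖-ζ⁻¹ * z‖ = ‖z‖ ∧ ‖-ζ⁻¹ * z + 1‖ = ‖z - ζ‖ := by
    intro z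
    constructor
    · rw [norm_mul, norm_neg, norm_inv, hζ, inv_one, one_mul]
    · have : -ζ⁻¹ * z + 1 = -ζ⁻¹ * (z - ζ) := by field_simp; ring
      rw [this, norm_mul, norm_neg, norm_inv, hζ, inv_one, one_mul]
  have := h (-ζ⁻¹ * z) (-ζ⁻¹ * w) (by rw [(key z).1]; exact hz) (by rw [(key w).1]; exact hw) 
    (by rw [(key z).2]; exact hz1) (by rw [(key w).2]; exact hw1)
  have e1 : ∀ z : ℂ, -ζ * (-ζ⁻¹ * z) = z := fun z => by field_simp
  simp only [e1] at this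
  exact this

end Pool.LibRMT
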