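import Pool.Agent.LibRMT.Basic
set_option autoImplicit false
open Filter Metric Set Complex Topology

namespace Pool.LibRMT

/-! ### injective holomorphic functions -/

/-- a holomorphic function on an open set with nonconstant restriction near a point; open image -/
theorem isOpen_image {f : ℂ → ℂ} {U : Set ℂ} (hU : IsOpen U) (hf : DifferentiableOn ℂ f U)
    (hi : InjOn f U) {V : Set ℂ} (hV : IsOpen V) (hVU : V ⊆ U) : IsOpen (f '' V) := by
  rw [isOpen_iff_mem_nhds]
  rintro _ ⟨z, hz, rfl⟩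
  have han : AnalyticAt ℂ f z := hf.analyticAt (hU.mem_nhds (hVU hz))
  rcases han.eventually_constant_or_nhds_le_map_nhds with h | h
  · exfalso
    have h1 : ∀ᶠ w in 𝓝 z, w ∈ U := hU.mem_nhds (hVU hz)
    obtain ⟨r, hr, h2⟩ := Metric.eventually_nhds_iff_ball.1 (h.and h1)
    have h3 : z + (r / 2 : ℝ) ∈ ball z r := by
      rw [mem_ball, dist_eq_norm, add_sub_cancel_left, Complex.norm_real, Real.norm_eq_abs, 
        abs_of_pos (by positivity)]
      linarith
    have h4 := hi (h2 _ h3).2 (hVU hz) (h2 _ h3).1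
    have h5 : ((r / 2 : ℝ) : ℂ) = 0 := by
      have := congrArg (fun w => w - z) h4
      simpa using this
    rw [Complex.ofReal_eq_zero] at h5
    linarith
  · exact h (Filter.image_mem_map (hV.mem_nhds hz))

/-- Möbius transformation of the disc moving `w` to `0` -/
noncomputable def mob (w z : ℂ) : ℂ := (z - w) / (1 - (starRingEnd ℂ) w * z)

theorem mob_den_ne {w z : ℂ} (hw : ‖w‖ < 1) (hz : ‖z‖ < 1) : 1 - (starRingEnd ℂ) w * z ≠ 0 := by
  intro h
  have h1 : (starRingEnd ℂ) w * z = 1 := (sub_eq_zero.1 h).symm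
  have h2 : ‖(starRingEnd ℂ) w * z‖ = 1 := by rw [h1, norm_one]
  rw [norm_mul, Complex.norm_conj] at h2
  have h3 : ‖w‖ * ‖z‖ < 1 := by
    rcases eq_or_lt_of_le (norm_nonneg z) with h | h
    · rw [← h]; simp
    · calc ‖w‖ * ‖z‖ < 1 * ‖z‖ := by gcongr
        _ < 1 := by simpa using hz
  linarith

theorem mob_identity (w z : ℂ) : normSq (1 - (starRingEnd ℂ) w * z) - normSq (z - w) = 
    (1 - normSq w) * (1 - normSq z) := by
  simp only [Complex.normSq_apply, Complex.sub_re, Complex.sub_im, Complex.mul_re, Complex.mul_im,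
    Complex.conj_re, Complex.conj_im, Complex.one_re, Complex.one_im]
  ring

theorem norm_mob_lt {w z : ℂ} (hw : ‖w‖ < 1) (hz : ‖z‖ < 1) : ‖mob w z‖ < 1 := by
  unfold mob
  rw [norm_div, div_lt_one (norm_pos_iff.2 (mob_den_ne hw hz))]
  have h := mob_identity w z
  rw [Complex.normSq_eq_norm_sq, Complex.normSq_eq_norm_sq, Complex.normSq_eq_norm_sq, 
    Complex.normSq_eq_norm_sq] at h
  have h1 : 0 < (1 - ‖w‖ ^ 2) * (1 - ‖z‖ ^ 2) := by
    have := norm_nonneg w
    have := norm_nonneg z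
    apply mul_pos <;> nlinarith
  exact lt_of_pow_lt_pow_left₀ 2 (norm_nonneg _) (by linarith)

theorem mob_self (w : ℂ) : mob w w = 0 := by simp [mob]

theorem mob_inj {w z z' : ℂ} (hw : ‖w‖ < 1) (hz : ‖z‖ < 1) (hz' : ‖z'‖ < 1) (h : mob w z = mob w z') : 
    z = z' := by
  unfold mob at h
  have h1 := mob_den_ne hw hz
  have h2 := mob_den_ne hw hz'
  rw [div_eq_div_iff h1 h2] at h
  have h3 : (z - z') * (1 - (starRingEnd ℂ) w * w) = 0 := by linear_combination h
  rcases mul_eq_zero.1 h3 with h4 | h4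
  · exact sub_eq_zero.1 h4
  · exact absurd h4 (mob_den_ne hw hw)

theorem mob_zero (w : ℂ) : mob w 0 = -w := by simp [mob]

theorem mob_eq_zero {w z : ℂ} (hw : ‖w‖ < 1) (hz : ‖z‖ < 1) : mob w z = 0 ↔ z = w := by
  unfold mob
  rw [div_eq_zero_iff, or_iff_left (mob_den_ne hw hz), sub_eq_zero]

/-- derivative of `mob` -/
theorem hasDerivAt_mob {w z : ℂ} (hw : ‖w‖ < 1) (hz : ‖z‖ < 1) :
    HasDerivAt (mob w) ((1 - (starRingEnd ℂ) w * w) / (1 - (starRingEnd ℂ) w * z) ^ 2) z := by
  have h1 : HasDerivAt (fun z : ℂ => z - w) 1 z := (hasDerivAt_id z).sub_const w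
  have h2 : HasDerivAt (fun z : ℂ => 1 - (starRingEnd ℂ) w * z) (-((starRingEnd ℂ) w)) z := by
    have := ((hasDerivAt_id z).const_mul ((starRingEnd ℂ) w)).const_sub 1
    simpa using this
  have h3 := h1.div h2 (mob_den_ne hw hz)
  have h4 : (1 * (1 - (starRingEnd ℂ) w * z) - (z - w) * -((starRingEnd ℂ) w)) / (1 - (starRingEnd ℂ) w * z) ^ 2 = 
    (1 - (starRingEnd ℂ) w * w) / (1 - (starRingEnd ℂ) w * z) ^ 2 := by
    congr 1; ring
  rw [h4] at h3
  exact h3

/-- the class of competitors -/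
structure Adm (U : Set ℂ) (a : ℂ) (f : ℂ → ℂ) : Prop where
  diff : DifferentiableOn ℂ f U
  inj : InjOn f U
  lt : ∀ z ∈ U, ‖f z‖ < 1
  zero : f a = 0

/-- every nonvanishing holomorphic function on `U` has a holomorphic square root on `U` -/
def SqrtDom (U : Set ℂ) : Prop :=
  ∀ h : ℂ → ℂ, DifferentiableOn ℂ h U → (∀ z ∈ U, h z ≠ 0) →
    ∃ g : ℂ → ℂ, DifferentiableOn ℂ g U ∧ ∀ z ∈ U, g z ^ 2 = h z

/-- an injective function with small image can be normalised -/
theorem Adm.of_inj {U : Set ℂ} {a : ℂ} (ha : a ∈ U) {f : ℂ → ℂ} (hd : DifferentiableOn ℂ f U) (hi : InjOn f U)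
    (hl : ∀ z ∈ U, ‖f z‖ < 1) : Adm U a (fun z => mob (f a) (f z)) where
  diff := by
    intro z hz
    exact (hasDerivAt_mob (hl a ha) (hl z hz)).differentiableAt.comp_differentiableWithinAt z (hd z hz)
  inj := by
    intro z hz w hw h
    exact hi hz hw (mob_inj (hl a ha) (hl z hz) (hl w hw) h)
  lt := fun z hz => norm_mob_lt (hl a ha) (hl z hz)
  zero := mob_self _

/-- step 1: there is a competitor -/
theorem exists_adm {U : Set ℂ} (hU : IsOpen U) (hne : U ≠ univ) (hs : SqrtDom U) {a : ℂ} (ha : a ∈ U) :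
    ∃ f, Adm U a f := by
  obtain ⟨b, hb⟩ : ∃ b, b ∉ U := by
    by_contra h
    push Not at h
    exact hne (eq_univ_of_forall h)
  obtain ⟨g, hg, hg2⟩ := hs (fun z => z - b) (by fun_prop) (fun z hz => by
    intro h; exact hb (sub_eq_zero.1 h ▸ hz))
  have hinj : InjOn g U := by
    intro z hz w hw h
    have h1 := hg2 z hz
    have h2 := hg2 w hw
    rw [h, h2] at h1
    linear_combination -h1
  have hop : IsOpen (g '' U) := isOpen_image hU hg hinj hU (Subset.refl _)
  obtain ⟨r, hr, hsub⟩ := Metric.isOpen_iff.1 hop (g a) (mem_image_of_mem g ha)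
  -- `-ball` is disjoint from the image
  have hfar : ∀ z ∈ U, r ≤ ‖g z + g a‖ := by
    intro z hz
    by_contra hlt
    push Not at hlt
    have h1 : -g z ∈ ball (g a) r := by
      rw [mem_ball, dist_eq_norm]
      calc ‖-g z - g a‖ = ‖g z + g a‖ := by rw [← norm_neg]; congr 1; ring
        _ < r := hlt
    obtain ⟨w, hw, hwz⟩ := hsub h1
    have h2 := hg2 z hz
    have h3 := hg2 w hw
    rw [hwz] at h3
    have h4 : z = w := by linear_combination h3 - h2
    subst h4
    have h5 : g z = 0 := by linear_combination hwz / 2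
    rw [h5] at h2
    have h6 : z - b = 0 := by rw [← h2]; ring
    exact hb (sub_eq_zero.1 h6 ▸ hz)
  have hne0 : ∀ z ∈ U, g z + g a ≠ 0 := by
    intro z hz h
    have := hfar z hz
    rw [h, norm_zero] at this
    linarith
  refine ⟨_, Adm.of_inj ha (f := fun z => ((r / 2 : ℝ) : ℂ) / (g z + g a)) ?_ ?_ ?_⟩
  · exact (differentiableOn_const _).div (hg.add_const _) hne0
  · intro z hz w hw h
    have h1 := hne0 z hz
    have h2 := hne0 w hw
    have h3 : ((r / 2 : ℝ) : ℂ) ≠ 0 := by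
      rw [Ne, Complex.ofReal_eq_zero]; linarith
    simp only at h
    rw [div_eq_div_iff h1 h2] at h
    have h4 := mul_left_cancel₀ h3 h
    exact hinj hz hw (by linear_combination -h4)
  · intro z hz
    have h1 := hfar z hz
    have h2 : 0 < ‖g z + g a‖ := lt_of_lt_of_le hr h1
    rw [norm_div, Complex.norm_real, Real.norm_eq_abs, abs_of_pos (by positivity), div_lt_one h2]
    linarith

/-- step 2: extremal competitor -/
theorem exists_extremal {U : Set ℂ} (hU : IsOpen U) (hc : IsPreconnected U) {a : ℂ} (ha : a ∈ U)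
    {f₀ : ℂ → ℂ} (hf₀ : Adm U a f₀) (hd₀ : deriv f₀ a ≠ 0) :
    ∃ f, Adm U a f ∧ ∀ h, Adm U a h → ‖deriv h a‖ ≤ ‖deriv f a‖ := by
  classical
  obtain ⟨S, hS⟩ : ∃ S : Set ℝ, S = {t | ∃ h, Adm U a h ∧ t = ‖deriv h a‖} := ⟨_, rfl⟩
  obtain ⟨r, hr, hsub⟩ := Metric.isOpen_iff.1 hU a ha
  have hbdd : BddAbove S := by
    refine ⟨1 / (r / 2), ?_⟩
    rw [hS]
    rintro _ ⟨h, hh, rfl⟩
    have hcb : closedBall a (r / 2) ⊆ U := (closedBall_subset_ball (by linarith)).trans hsub
    refine Complex.norm_deriv_le_of_forall_mem_sphere_norm_le (by linarith) 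
      ((hh.diff.mono (closure_ball_subset_closedBall.trans hcb)).diffContOnCl) (fun z hz => ?_)
    exact (hh.lt z (hcb (sphere_subset_closedBall hz))).le
  have hmem0 : ‖deriv f₀ a‖ ∈ S := by rw [hS]; exact ⟨f₀, hf₀, rfl⟩
  have hSne : S.Nonempty := ⟨_, hmem0⟩
  obtain ⟨M, hM⟩ : ∃ M : ℝ, M = sSup S := ⟨_, rfl⟩
  have hMle : ∀ t ∈ S, t ≤ M := fun t ht => by rw [hM]; exact le_csSup hbdd ht
  have hM0 : 0 < M := lt_of_lt_of_le (norm_pos_iff.2 hd₀) (hMle _ hmem0)
  have hseq : ∀ n : ℕ, ∃ h, Adm U a h ∧ M - 1 / ((n : ℝ) + 1) < ‖deriv h a‖ := by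
    intro n
    have hlt : M - 1 / ((n : ℝ) + 1) < sSup S := by
      rw [← hM]
      have : 0 < 1 / ((n : ℝ) + 1) := by positivity
      linarith
    obtain ⟨t, ht, hlt'⟩ := exists_lt_of_lt_csSup hSne hlt
    rw [hS] at ht
    obtain ⟨h, hh, rfl⟩ := ht
    exact ⟨h, hh, hlt'⟩
  choose F hF hFM using hseq
  obtain ⟨f, hf⟩ := montel_nat F hU (fun i => (hF i).diff) 
    (fun x _ => ⟨1, one_pos, 1, fun i z hz => ((hF i).lt z hz.2).le⟩)
  have hdF : ∀ᶠ i in (hyperfilter ℕ : Filter ℕ), DifferentiableOn ℂ (F i) U := 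
    Eventually.of_forall (fun i => (hF i).diff)
  have hfd : DifferentiableOn ℂ f U := hf.differentiableOn hdF hU
  have hder : TendstoLocallyUniformlyOn (deriv ∘ F) (deriv f) (hyperfilter ℕ : Filter ℕ) U := hf.deriv hdF hU
  have h1 : Tendsto (fun i => ‖deriv (F i) a‖) (hyperfilter ℕ : Filter ℕ) (𝓝 ‖deriv f a‖) := 
    (hder.tendsto_at ha).norm
  have h2 : Tendsto (fun i : ℕ => ‖deriv (F i) a‖) (hyperfilter ℕ : Filter ℕ) (𝓝 M) := by
    have h3 : Tendsto (fun i : ℕ => ‖deriv (F i) a‖) atTop (𝓝 M) := by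
      refine tendsto_of_tendsto_of_tendsto_of_le_of_le (g := fun i : ℕ => M - 1 / ((i : ℝ) + 1)) 
        (h := fun _ => M) ?_ tendsto_const_nhds (fun i => (hFM i).le) 
        (fun i => hMle _ (by rw [hS]; exact ⟨F i, hF i, rfl⟩))
      have := (tendsto_const_nhds (x := M)).sub (tendsto_one_div_add_atTop_nhds_zero_nat (𝕜 := ℝ))
      simpa using this
    exact h3.mono_left Nat.hyperfilter_le_atTop
  have h3 : ‖deriv f a‖ = M := tendsto_nhds_unique h1 h2
  have hfa : f a = 0 := by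
    have h4 := hf.tendsto_at ha
    have h5 : (fun i => F i a) = fun _ : ℕ => (0 : ℂ) := by ext i; exact (hF i).zero
    rw [h5] at h4
    exact tendsto_nhds_unique h4 tendsto_const_nhds
  -- nonconstant
  have hnc : ∃ y ∈ U, f y ≠ f a := by
    by_contra hcon
    push Not at hcon
    have h4 : f =ᶠ[𝓝 a] fun _ => f a := by
      filter_upwards [hU.mem_nhds ha] with z hz
      exact hcon z hz
    have h5 := h4.deriv_eq
    rw [deriv_const] at h5
    rw [h5, norm_zero] at h3
    linarith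
  obtain ⟨y, hy, hya⟩ := hnc
  have hinj : InjOn f U := hurwitz_inj hU hc hf hdF (Eventually.of_forall (fun i => (hF i).inj)) hy ha hya
  have hle : ∀ z ∈ U, ‖f z‖ ≤ 1 := by
    intro z hz
    exact le_of_tendsto (hf.tendsto_at hz).norm (Eventually.of_forall (fun i => ((hF i).lt z hz).le))
  have hlt : ∀ z ∈ U, ‖f z‖ < 1 := by
    intro z hz
    have hop : IsOpen (f '' U) := isOpen_image hU hfd hinj hU (Subset.refl _)
    have hsub2 : f '' U ⊆ closedBall 0 1 := by
      rintro _ ⟨w, hw, rfl⟩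
      rw [mem_closedBall, dist_zero_right]
      exact hle w hw
    have h4 : f z ∈ interior (closedBall (0:ℂ) 1) := 
      (interior_maximal hsub2 hop) (mem_image_of_mem f hz)
    rw [interior_closedBall _ one_ne_zero, mem_ball, dist_zero_right] at h4
    exact h4
  refine ⟨f, ⟨hfd, hinj, hlt, hfa⟩, fun h hh => ?_⟩
  rw [h3]
  exact hMle _ (by rw [hS]; exact ⟨h, hh, rfl⟩)

/-- injective holomorphic functions have nonvanishing derivative -/
theorem deriv_ne_zero_of_injOn {f : ℂ → ℂ} {U : Set ℂ} (hU : IsOpen U) (hf : DifferentiableOn ℂ f U)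
    (hi : InjOn f U) {a : ℂ} (ha : a ∈ U) : deriv f a ≠ 0 := by
  intro h0
  -- order of vanishing of `f - f a` at `a`
  have han : AnalyticAt ℂ f a := hf.analyticAt (hU.mem_nhds ha)
  have han2 : AnalyticAt ℂ (fun z => f z - f a) a := han.sub analyticAt_const
  have hnz : ¬ ∀ᶠ z in 𝓝 a, f z - f a = 0 := by
    intro h
    have h1 : ∀ᶠ w in 𝓝 a, w ∈ U := hU.mem_nhds ha
    obtain ⟨r, hr, h2⟩ := Metric.eventually_nhds_iff_ball.1 (h.and h1)
    have h3 : a + (r / 2 : ℝ) ∈ ball a r := by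
      rw [mem_ball, dist_eq_norm, add_sub_cancel_left, Complex.norm_real, Real.norm_eq_abs, 
        abs_of_pos (by positivity)]
      linarith
    have h4 := hi (h2 _ h3).2 ha (sub_eq_zero.1 (h2 _ h3).1)
    have h5 : ((r / 2 : ℝ) : ℂ) = 0 := by
      have := congrArg (fun w => w - a) h4
      simpa using this
    rw [Complex.ofReal_eq_zero] at h5
    linarith
  obtain ⟨n, g, hg, hga, hfg⟩ := (han2.exists_eventuallyEq_pow_smul_nonzero_iff).2 hnz
  -- n ≥ 2
  have hn2 : 2 ≤ n := by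
    by_contra hlt
    have : n = 0 ∨ n = 1 := by omega
    rcases this with rfl | rfl
    · have h1 := hfg.self_of_nhds
      simp at h1
      exact hga h1.symm
    · have h1 : (fun z => f z - f a) =ᶠ[𝓝 a] fun z => (z - a) * g z := by
        filter_upwards [hfg] with z hz
        rw [hz]; simp
      have h2 : HasDerivAt (fun z => (z - a) * g z) (g a) a := by
        have h3 := HasDerivAt.fun_mul ((hasDerivAt_id' a).sub_const a) hg.differentiableAt.hasDerivAt
        have h3' : 1 * g a + (a - a) * deriv g a = g a := by ring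
        rw [h3'] at h3
        exact h3
      have h4 : HasDerivAt (fun z => f z - f a) (g a) a := h2.congr_of_eventuallyEq h1
      have h5 : HasDerivAt (fun z => f z - f a) (deriv f a) a := 
        (han.differentiableAt.hasDerivAt).sub_const _
      have h6 := h4.unique h5
      rw [h0] at h6
      exact hga h6
  -- n-th root of g near a
  obtain ⟨c, hc⟩ : ∃ c : ℂ, c = Complex.exp (Complex.log (g a) / n) := ⟨_, rfl⟩
  have hn0 : (n : ℂ) ≠ 0 := by
    have : n ≠ 0 := by omega
    exact_mod_cast this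
  have hcn : c ^ n = g a := by
    rw [hc, ← Complex.exp_nat_mul, mul_div_cancel₀ _ hn0, Complex.exp_log hga]
  have hc0 : c ≠ 0 := by rw [hc]; exact Complex.exp_ne_zero _
  obtain ⟨k, hk⟩ : ∃ k : ℂ → ℂ, k = fun z => (z - a) * (c * Complex.exp (Complex.log (g z / g a) / n)) := ⟨_, rfl⟩
  have hq : AnalyticAt ℂ (fun z => g z / g a) a := hg.div_const
  have hslit : g a / g a ∈ slitPlane := by rw [div_self hga]; exact one_mem_slitPlane
  have hlog : AnalyticAt ℂ (fun z => Complex.log (g z / g a)) a := hq.clog hslit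
  have hkan : AnalyticAt ℂ k a := by
    rw [hk]
    exact (analyticAt_id.sub analyticAt_const).mul (analyticAt_const.mul (hlog.div_const.cexp))
  have hka : k a = 0 := by rw [hk]; simp
  have hkn : ∀ᶠ z in 𝓝 a, f z - f a = k z ^ n := by
    have h1 : ∀ᶠ z in 𝓝 a, g z ≠ 0 := hg.continuousAt.eventually_ne hga
    filter_upwards [hfg, h1] with z hz hgz
    rw [hz, hk]
    simp only [smul_eq_mul, mul_pow, ← Complex.exp_nat_mul, hcn]
    rw [mul_div_cancel₀ _ hn0, Complex.exp_log (div_ne_zero hgz hga)]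
    field_simp
  have hkd : HasDerivAt k c a := by
    have h3 : HasDerivAt (fun z => c * Complex.exp (Complex.log (g z / g a) / n)) 
        (deriv (fun z => c * Complex.exp (Complex.log (g z / g a) / n)) a) a := 
      (analyticAt_const.mul (hlog.div_const.cexp)).differentiableAt.hasDerivAt
    have h4 := HasDerivAt.fun_mul ((hasDerivAt_id' a).sub_const a) h3
    have h5 : 1 * (c * Complex.exp (Complex.log (g a / g a) / n)) +
        (a - a) * deriv (fun z => c * Complex.exp (Complex.log (g z / g a) / n)) a = c := by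
      simp [hga]
    rw [h5] at h4
    rw [hk]
    exact h4
  -- k is open near a
  have hknc : ¬ ∀ᶠ z in 𝓝 a, k z = k a := by
    intro h
    have h1 : k =ᶠ[𝓝 a] fun _ => k a := h
    have h2 := h1.deriv_eq
    rw [deriv_const, hkd.deriv] at h2
    exact hc0 h2
  have hkmap : 𝓝 (k a) ≤ map k (𝓝 a) := 
    (hkan.eventually_constant_or_nhds_le_map_nhds).resolve_left hknc
  -- choose small ball where everything holds
  obtain ⟨ρ, hρ, hball⟩ := Metric.eventually_nhds_iff_ball.1 (hkn.and (hU.mem_nhds ha : ∀ᶠ z in 𝓝 a, z ∈ U))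
  have himg : k '' ball a ρ ∈ 𝓝 (k a) := hkmap (Filter.image_mem_map (ball_mem_nhds a hρ))
  rw [hka] at himg
  obtain ⟨δ, hδ, hδsub⟩ := Metric.mem_nhds_iff.1 himg
  -- two different n-th roots
  obtain ⟨ζ, hζ⟩ : ∃ ζ : ℂ, ζ = Complex.exp (2 * Real.pi * I / n) := ⟨_, rfl⟩
  have hprim : IsPrimitiveRoot ζ n := by rw [hζ]; exact Complex.isPrimitiveRoot_exp n (by omega)
  have hζn : ζ ^ n = 1 := hprim.pow_eq_one
  have hζ1 : ζ ≠ 1 := hprim.ne_one (by omega)
  have hζnorm : ‖ζ‖ = 1 := hprim.norm'_eq_one (by omega)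
  obtain ⟨s, hs⟩ : ∃ s : ℂ, s = ((δ / 2 : ℝ) : ℂ) := ⟨_, rfl⟩
  have hsn : ‖s‖ = δ / 2 := by rw [hs, Complex.norm_real, Real.norm_eq_abs, abs_of_pos (by positivity)]
  have hs0 : s ≠ 0 := by
    rw [← norm_pos_iff, hsn]; positivity
  obtain ⟨z1, hz1, hkz1⟩ := hδsub (show s ∈ ball 0 δ by rw [mem_ball, dist_zero_right, hsn]; linarith)
  obtain ⟨z2, hz2, hkz2⟩ := hδsub (show ζ * s ∈ ball 0 δ by 
    rw [mem_ball, dist_zero_right, norm_mul, hζnorm, hsn]; linarith)
  have h1 := (hball z1 hz1).1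
  have h2 := (hball z2 hz2).1
  rw [hkz1] at h1
  rw [hkz2, mul_pow, hζn, one_mul] at h2
  have h3 : f z1 = f z2 := by
    have : f z1 - f a = f z2 - f a := by rw [h1, h2]
    linear_combination this
  have h4 := hi (hball z1 hz1).2 (hball z2 hz2).2 h3
  rw [h4, hkz2] at hkz1
  have h5 : (ζ - 1) * s = 0 := by linear_combination hkz1
  rcases mul_eq_zero.1 h5 with h6 | h6
  · exact hζ1 (sub_eq_zero.1 h6)
  · exact hs0 h6

/-- step 3: an extremal competitor is onto -/
theorem Adm.image_eq {U : Set ℂ} (hU : IsOpen U) (hs : SqrtDom U) {a : ℂ} (ha : a ∈ U) {f : ℂ → ℂ} 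
    (hf : Adm U a f) (hmax : ∀ h, Adm U a h → ‖deriv h a‖ ≤ ‖deriv f a‖) : f '' U = ball 0 1 := by
  have hda : deriv f a ≠ 0 := deriv_ne_zero_of_injOn hU hf.diff hf.inj ha
  apply Subset.antisymm
  · rintro _ ⟨z, hz, rfl⟩
    rw [mem_ball, dist_zero_right]
    exact hf.lt z hz
  · intro w hw
    rw [mem_ball, dist_zero_right] at hw
    by_contra hwim
    have hw0 : w ≠ 0 := by
      rintro rfl
      exact hwim ⟨a, ha, hf.zero⟩
    have hne : ∀ z ∈ U, mob w (f z) ≠ 0 := by
      intro z hz h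
      rw [mob_eq_zero hw (hf.lt z hz)] at h
      exact hwim ⟨z, hz, h⟩
    have hdm : DifferentiableOn ℂ (fun z => mob w (f z)) U := by
      intro z hz
      exact (hasDerivAt_mob hw (hf.lt z hz)).differentiableAt.comp_differentiableWithinAt z (hf.diff z hz)
    obtain ⟨g, hg, hg2⟩ := hs _ hdm hne
    have hglt : ∀ z ∈ U, ‖g z‖ < 1 := by
      intro z hz
      have h1 : ‖g z‖ ^ 2 < 1 := by
        rw [← norm_pow, hg2 z hz]
        exact norm_mob_lt hw (hf.lt z hz)
      nlinarith [norm_nonneg (g z)]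
    have hginj : InjOn g U := by
      intro z hz z' hz' h
      have h1 : mob w (f z) = mob w (f z') := by rw [← hg2 z hz, ← hg2 z' hz', h]
      exact hf.inj hz hz' (mob_inj hw (hf.lt z hz) (hf.lt z' hz') h1)
    have hk := Adm.of_inj ha hg hginj hglt
    have hle := hmax _ hk
    -- derivatives
    have hdf : HasDerivAt f (deriv f a) a := (hf.diff.differentiableAt (hU.mem_nhds ha)).hasDerivAt
    have hdg : HasDerivAt g (deriv g a) a := (hg.differentiableAt (hU.mem_nhds ha)).hasDerivAt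
    have hfa := hf.zero
    have h1 : HasDerivAt (fun z => mob w (f z)) ((1 - (starRingEnd ℂ) w * w) * deriv f a) a := by
      have h2 := hasDerivAt_mob hw (hf.lt a ha)
      have h3 : HasDerivAt (fun z => mob w (f z)) _ a := h2.comp a hdf
      convert h3 using 1
      rw [hfa]
      simp
    have h2 : HasDerivAt (fun z => g z ^ 2) (2 * g a * deriv g a) a := by
      have := hdg.fun_pow 2
      have h9 : ((2 : ℕ) : ℂ) * g a ^ (2 - 1) * deriv g a = 2 * g a * deriv g a := by norm_num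
      rw [h9] at this
      exact this
    have h3 : (fun z => g z ^ 2) =ᶠ[𝓝 a] fun z => mob w (f z) := by
      filter_upwards [hU.mem_nhds ha] with z hz
      exact hg2 z hz
    have h4 : 2 * g a * deriv g a = (1 - (starRingEnd ℂ) w * w) * deriv f a := 
      (h2.congr_of_eventuallyEq h3.symm).unique h1
    have h5 : HasDerivAt (fun z => mob (g a) (g z)) (deriv g a / (1 - (starRingEnd ℂ) (g a) * g a)) a := by
      have h6 := hasDerivAt_mob (hglt a ha) (hglt a ha)
      have h7 := h6.comp a hdg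
      have h8 := mob_den_ne (hglt a ha) (hglt a ha)
      have h9 : (1 - (starRingEnd ℂ) (g a) * g a) / (1 - (starRingEnd ℂ) (g a) * g a) ^ 2 * deriv g a = 
          deriv g a / (1 - (starRingEnd ℂ) (g a) * g a) := by
        field_simp
      rw [h9] at h7
      exact h7
    rw [h5.deriv] at hle
    -- norms
    obtain ⟨t, ht⟩ : ∃ t : ℝ, t = ‖g a‖ := ⟨_, rfl⟩
    have hga2 : g a ^ 2 = -w := by rw [hg2 a ha, hfa, mob_zero]
    have ht2 : t ^ 2 = ‖w‖ := by rw [ht, ← norm_pow, hga2, norm_neg]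
    have ht0 : 0 < t := by
      rcases lt_or_eq_of_le (norm_nonneg (g a)) with h | h
      · rw [ht]; exact h
      · exfalso
        rw [← ht] at h
        rw [← h] at ht2
        have : ‖w‖ = 0 := by rw [← ht2]; ring
        exact hw0 (norm_eq_zero.1 this)
    have ht1 : t < 1 := by rw [ht]; exact hglt a ha
    have hconjw : (1 - (starRingEnd ℂ) w * w) = ((1 - t ^ 4 : ℝ) : ℂ) := by
      rw [mul_comm, Complex.mul_conj, Complex.normSq_eq_norm_sq, ← ht2]
      push_cast; ring
    have hconjg : (1 - (starRingEnd ℂ) (g a) * g a) = ((1 - t ^ 2 : ℝ) : ℂ) := by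
      rw [mul_comm, Complex.mul_conj, Complex.normSq_eq_norm_sq, ← ht]
      push_cast; ring
    rw [hconjg, norm_div, Complex.norm_real, Real.norm_eq_abs, abs_of_pos (by nlinarith)] at hle
    have h6 := congrArg norm h4
    rw [hconjw, norm_mul, norm_mul, norm_mul, Complex.norm_real, Real.norm_eq_abs, ← ht, 
      abs_of_pos (by nlinarith [pow_pos ht0 2, pow_pos ht0 4, pow_lt_one₀ ht0.le ht1 (by norm_num : (4:ℕ) ≠ 0)] : (0:ℝ) < 1 - t ^ 4)] at h6
    have h7 : ‖(2:ℂ)‖ = 2 := by norm_num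
    rw [h7] at h6
    have hdpos : 0 < ‖deriv f a‖ := norm_pos_iff.2 hda
    obtain ⟨D, hD⟩ : ∃ D : ℝ, D = ‖deriv f a‖ := ⟨_, rfl⟩
    obtain ⟨E, hE⟩ : ∃ E : ℝ, E = ‖deriv g a‖ := ⟨_, rfl⟩
    rw [← hD, ← hE] at h6
    rw [← hD, ← hE] at hle
    rw [← hD] at hdpos
    have h8 : 0 < 1 - t ^ 2 := by nlinarith
    rw [div_le_iff₀ h8] at hle
    -- 2 t E = (1 - t^4) D, E ≤ D (1 - t^2)
    have h9 : (1 - t ^ 4) * D ≤ 2 * t * (D * (1 - t ^ 2)) := by
      rw [← h6]
      have : 0 ≤ 2 * t := by positivity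
      exact mul_le_mul_of_nonneg_left hle this
    have h10 : (1 - t ^ 4) * D - 2 * t * (D * (1 - t ^ 2)) = D * (1 - t ^ 2) * (1 - t) ^ 2 := by ring
    have h11 : 0 < D * (1 - t ^ 2) * (1 - t) ^ 2 := by
      have : 0 < 1 - t := by linarith
      positivity
    linarith

/-- **Riemann mapping theorem**, square root form -/
theorem riemann_sqrt {U : Set ℂ} (hU : IsOpen U) (hc : IsPreconnected U) (hne : U ≠ univ) (hs : SqrtDom U) 
    {a : ℂ} (ha : a ∈ U) :
    ∃ f : ℂ → ℂ, DifferentiableOn ℂ f U ∧ InjOn f U ∧ f '' U = ball 0 1 ∧ f a = 0 ∧ 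
      ∀ z ∈ U, deriv f z ≠ 0 := by
  obtain ⟨f₀, hf₀⟩ := exists_adm hU hne hs ha
  obtain ⟨f, hf, hmax⟩ := exists_extremal hU hc ha hf₀ (deriv_ne_zero_of_injOn hU hf₀.diff hf₀.inj ha)
  exact ⟨f, hf.diff, hf.inj, hf.image_eq hU hs ha hmax, hf.zero, 
    fun z hz => deriv_ne_zero_of_injOn hU hf.diff hf.inj hz⟩

/-- simply connected open sets have holomorphic square roots -/
theorem sqrtDom_of_isSimplyConnected {U : Set ℂ} (hU : IsOpen U) (hs : IsSimplyConnected U) : SqrtDom U := by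
  intro h hd hne
  have h0 : 0 ∉ h '' U := by
    rintro ⟨z, hz, hz0⟩
    exact hne z hz hz0
  obtain ⟨g, hgc, hg⟩ := Complex.exists_continuousOn_pow_eq hs hU hd.continuousOn h0 (n := 2) two_ne_zero
  refine ⟨g, ?_, fun z _ => hg z⟩
  intro z hz
  have hgz : g z ≠ 0 := by
    intro h1
    have := hg z
    rw [h1] at this
    exact hne z hz (by rw [← this]; ring)
  -- difference quotient
  have hhd : HasDerivAt h (deriv h z) z := (hd.differentiableAt (hU.mem_nhds hz)).hasDerivAt
  have hgcz : ContinuousAt g z := hgc.continuousAt (hU.mem_nhds hz)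
  have hkey : HasDerivAt g (deriv h z / (2 * g z)) z := by
    rw [hasDerivAt_iff_tendsto_slope] at hhd ⊢
    have h1 : Tendsto (fun w => slope h z w / (g w + g z)) (𝓝[≠] z) (𝓝 (deriv h z / (g z + g z))) := by
      refine hhd.div ((hgcz.tendsto.mono_left nhdsWithin_le_nhds).add_const _) ?_
      rw [← two_mul]
      exact mul_ne_zero two_ne_zero hgz
    rw [← two_mul] at h1
    refine h1.congr' ?_
    have h2 : ∀ᶠ w in 𝓝[≠] z, g w + g z ≠ 0 := by
      have h3 : Tendsto (fun w => g w + g z) (𝓝[≠] z) (𝓝 (g z + g z)) := 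
        (hgcz.tendsto.mono_left nhdsWithin_le_nhds).add_const _
      refine h3.eventually_ne ?_
      rw [← two_mul]
      exact mul_ne_zero two_ne_zero hgz
    filter_upwards [h2, self_mem_nhdsWithin] with w hw hwz
    rw [slope_def_field, slope_def_field, ← hg w, ← hg z]
    have hwz' : w - z ≠ 0 := sub_ne_zero.2 hwz
    field_simp
    ring
  exact hkey.differentiableAt.differentiableWithinAt

/-- **Riemann mapping theorem** -/
theorem riemann {U : Set ℂ} (hU : IsOpen U) (hs : IsSimplyConnected U) (hne : U ≠ univ) 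
    {a : ℂ} (ha : a ∈ U) :
    ∃ f : ℂ → ℂ, DifferentiableOn ℂ f U ∧ InjOn f U ∧ f '' U = ball 0 1 ∧ f a = 0 ∧ 
      ∀ z ∈ U, deriv f z ≠ 0 := by
  refine riemann_sqrt hU ?_ hne (sqrtDom_of_isSimplyConnected hU hs) ha
  exact hs.isPathConnected.isConnected.isPreconnected

/-- inverse of a biholomorphic map -/
theorem inverse_diff {f : ℂ → ℂ} {U V : Set ℂ} (hU : IsOpen U) (hf : DifferentiableOn ℂ f U)
    (hi : InjOn f U) (hV : f '' U = V) :
    ∃ g : ℂ → ℂ, DifferentiableOn ℂ g V ∧ (∀ w ∈ V, g w ∈ U ∧ f (g w) = w) ∧ ∀ z ∈ U, g (f z) = z := by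
  classical
  refine ⟨Function.invFunOn f U, ?_, ?_, ?_⟩
  · intro w hw
    rw [← hV] at hw
    obtain ⟨z, hz, rfl⟩ := hw
    have hgf : ∀ z ∈ U, Function.invFunOn f U (f z) = z := fun z hz => hi.leftInvOn_invFunOn hz
    have hd : HasDerivAt f (deriv f z) z := (hf.differentiableAt (hU.mem_nhds hz)).hasDerivAt
    have hne := deriv_ne_zero_of_injOn hU hf hi hz
    have hcont : ContinuousAt (Function.invFunOn f U) (f z) := by
      rw [ContinuousAt, hgf z hz]
      intro N hN
      rw [Filter.mem_map]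
      obtain ⟨N', hN'N, hN'o, hzN'⟩ := _root_.mem_nhds_iff.1 (Filter.inter_mem hN (hU.mem_nhds hz))
      have hop : IsOpen (f '' N') := isOpen_image hU hf hi hN'o (fun x hx => (hN'N hx).2)
      refine Filter.mem_of_superset (hop.mem_nhds ⟨z, hzN', rfl⟩) ?_
      rintro _ ⟨x, hx, rfl⟩
      rw [mem_preimage, hgf x (hN'N hx).2]
      exact (hN'N hx).1
    have hop : IsOpen (f '' U) := isOpen_image hU hf hi hU (Subset.refl _)
    have hev : ∀ᶠ y in 𝓝 (f z), f (Function.invFunOn f U y) = y := by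
      filter_upwards [hop.mem_nhds ⟨z, hz, rfl⟩] with y hy
      obtain ⟨x, hx, rfl⟩ := hy
      rw [hgf x hx]
    have hd' : HasDerivAt f (deriv f z) (Function.invFunOn f U (f z)) := by rw [hgf z hz]; exact hd
    exact (HasDerivAt.of_local_left_inverse hcont hd' hne hev).differentiableAt.differentiableWithinAt
  · intro w hw
    rw [← hV] at hw
    exact ⟨Function.invFunOn_mem hw, Function.invFunOn_eq hw⟩
  · intro z hz
    exact hi.leftInvOn_invFunOn hz

end Pool.LibRMT
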